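import Pool.Agent.V8H2.MQ.Core
import Pool.Agent.R498.MP.PA8

/-!
The core for slots with primes: the values may have prime divisors which divide the modulus.

The two theorems are those of `Pool.Agent.R498.MP.PA8` and `Pool.Agent.V8H2.MQ.Core`; only the primes which do not
divide `W` are sieved, and the class `b` is only supposed to be prime to `W`.
-/

set_option autoImplicit false
set_option linter.unusedSectionVars false

namespace Pool.Agent.V8H34.PS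

open Finset Filter
open Pool.Agent.R498.MT
open Pool.Agent.R498.MP
open Pool.Agent.V8H2.MQ
open Pool.Agent.Y677.RSZ (rt Sys rhoT per_mod ev_log)
open Pool.Agent.Y852.RSZ (OmC)
open Pool.Agent.TH423.SH (PS PIj)
open Pool.Agent.W23.DC
open Pool.Agent.Y882
open Pool.Agent.Y882.PX
open Pool.Agent.Y882.KW
open Pool.Agent.TH423.SH.PSUa (ee ee_nonneg)

open Classical in
/-- the arguments with more than `m` primes -/
noncomputable def gq (F : ℤ → ℤ) (z W b : ℕ) {n : ℕ} (t : Fin n → ℕ) (m M L : ℕ) : Finset ℕ :=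
  (Ioc M (M + L)).filter (fun K =>
    (∀ p ∈ PS W z, ∀ i, ¬ (p : ℤ) ∣ F ((W * (K + t i) + b : ℕ) : ℤ)) ∧
    m < (univ.filter (fun i => (W * (K + t i) + b).Prime)).card)

open Classical in
/-- the contribution of one argument -/
theorem pt_upQ (F : ℤ → ℤ) (B Λ : ℝ) (W b z k m M L : ℕ) (t : Fin (2 ^ k) → ℕ)
    (K : ℕ) (hK : K ∈ Ioc M (M + L)) (hΛ0 : 0 ≤ Λ) (hΛ : Λ ≤ B) :
    nuI F W b z t K * (Λ * (∑ i, (if (W * (K + t i) + b).Prime then (1 : ℝ) else 0) - m)) ≤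
      if K ∈ gq F z W b t m M L then B * 2 ^ k else 0 := by
  have hB0 : 0 ≤ B := hΛ0.trans hΛ
  have hB2 : 0 ≤ B * 2 ^ k := by positivity
  by_cases hν : ∀ p ∈ PS W z, ∀ i, ¬ (p : ℤ) ∣ F ((W * (K + t i) + b : ℕ) : ℤ)
  swap
  · have : nuI F W b z t K = 0 := by unfold nuI; rw [if_neg hν]
    rw [this, zero_mul]
    split_ifs
    · exact hB2
    · exact le_rfl
  have hν1 : nuI F W b z t K = 1 := by unfold nuI; rw [if_pos hν]
  rw [hν1, one_mul]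
  have hcard : ∑ i : Fin (2 ^ k), (if (W * (K + t i) + b).Prime then (1 : ℝ) else 0) =
      ((univ.filter (fun i => (W * (K + t i) + b).Prime)).card : ℝ) := by
    rw [← sum_filter]
    simp
  rw [hcard]
  by_cases hs : ((univ.filter (fun i => (W * (K + t i) + b).Prime)).card : ℝ) - m ≤ 0
  · have h2 := mul_nonpos_of_nonneg_of_nonpos hΛ0 hs
    refine h2.trans ?_
    split_ifs
    · exact hB2
    · exact le_rfl
  push Not at hs
  have hmem : K ∈ gq F z W b t m M L := by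
    unfold gq
    rw [mem_filter]
    refine ⟨hK, hν, ?_⟩
    have h5 : (m : ℝ) < ((univ.filter (fun i => (W * (K + t i) + b).Prime)).card : ℝ) := by
      linarith
    have h6 : m < (univ.filter (fun i => (W * (K + t i) + b).Prime)).card := by exact_mod_cast h5
    convert h6
  rw [if_pos hmem]
  have hs2 : ((univ.filter (fun i => (W * (K + t i) + b).Prime)).card : ℝ) - m ≤ 2 ^ k := by
    have h3 : (univ.filter (fun i : Fin (2 ^ k) => (W * (K + t i) + b).Prime)).card ≤ 2 ^ k := by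
      refine (card_filter_le _ _).trans ?_
      rw [card_univ, Fintype.card_fin]
    have h4 : ((univ.filter (fun i : Fin (2 ^ k) => (W * (K + t i) + b).Prime)).card : ℝ) ≤
        2 ^ k := by exact_mod_cast h3
    have : (0 : ℝ) ≤ m := Nat.cast_nonneg m
    linarith
  exact mul_le_mul hΛ hs2 hs.le hB0

open Classical in
/-- the two sums at one place -/
theorem core1Q (F : ℤ → ℤ) (g : ℕ) (hF : Sys g F)
    (m k W c' N b₀ Y b M L z : ℕ) (υ R ε₁ : ℝ) (hυ : ε₁ ≤ υ) (hR : 0 < R) (hW : 0 < W)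
    (hk : 3 * ((m : ℝ) + 1) * 1474560 ≤ 1 / 4 * R * k) (hε : 0 < ε₁) (hε8 : ε₁ ≤ 1 / 8)
    (hεe : ε₁ ≤ e0 k 1 R) (hbE : 2 * (1 / 2 : ℝ) ^ b₀ ≤ ε₁ ^ (16 * (2 ^ k) ^ 2 + 1))
    (hc' : ((2 ^ k : ℕ) : ℝ) * (2 / ε₁) ≤ c') (t : Fin (2 ^ k) → ℕ) (hN : ∀ i, t i ≤ N)
    (e4 : W * (N + 1) + b + 3 ≤ Y) (hMY : M + L ≤ Y)
    (hd : Dat (qs Gi Y ε₁ υ) (mus Gi Y ε₁ υ) (ls Gi Y ε₁ υ) ε₁ R υ (om k 1 ε₁))
    (hU : ∀ (K : ℕ) (s : Pg Gi Y ε₁ υ) i j, ((s : ℕ) : ℤ) ∣ Gi ((W * (K + t i) + b : ℕ) : ℤ) →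
      ((s : ℕ) : ℤ) ∣ Gi ((W * (K + t j) + b : ℕ) : ℤ) → i = j)
    (hV0 : 0 < Vp F W b z t)
    (hcnt : Cnt (Ioc M (M + L)) (nuI F W b z t) (xi Gi W b t (fun s : Pg Gi Y ε₁ υ => (s : ℕ)))
      (fun s _ => 1 / qs Gi Y ε₁ υ s) (L * Vp F W b z t) (2 * (1 / 2 : ℝ) ^ b₀)
      (fun T => lt (ls Gi Y ε₁ υ) T ≤ 2 * R))
    (hbig : (Y : ℝ) ^ υ ≤ ((W * M + b : ℕ) : ℝ)) (Xi : Fin (2 ^ k) → ℝ) (hXi0 : ∀ i, 0 ≤ Xi i)
    (hXi1 : ∀ i, 1 / 4 * ε₁ * (L * Vp F W b z t) ≤ Xi i)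
    (Rr : Fin (2 ^ k) → (Pg Gi Y ε₁ υ → Option (Fin (2 ^ k))) → ℝ) (hRr : ∀ i T, 0 ≤ Rr i T)
    (hC2 : ∀ i, CntA (Ioc M (M + L))
      (fun K => nuI F W b z t K * (if (W * (K + t i) + b).Prime then 1 else 0))
      (xi Gi W b t (fun s : Pg Gi Y ε₁ υ => (s : ℕ)))
      (fun s => rd (some i) (qs Gi Y ε₁ υ s) 0) (Xi i) (2 * (1 / 2 : ℝ) ^ b₀) (Rr i)
      (fun T => lt (ls Gi Y ε₁ υ) T ≤ 2 * R))
    (herr : ∀ i, ∑ T, 5 ^ nc T * Rr i T ≤ L * Vp F W b z t / (8 * 2 ^ k * Ab k ε₁)) :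
    1 / (2 ^ k * (Ab k ε₁ * 2 ^ c') ^ 2) * (L * Vp F W b z t) ≤
      ((gq F z W b t m M L).card : ℝ) := by
  have hY2' : 2 ≤ Y := by omega
  have hξ : ∀ K (s : Pg Gi Y ε₁ υ) j,
      xi Gi W b t (fun s : Pg Gi Y ε₁ υ => (s : ℕ)) K s = some j ↔
        ((s : ℕ) : ℤ) ∣ Gi ((W * (K + t j) + b : ℕ) : ℤ) :=
    fun K s j => xi_iff Gi W b t _ K s (hU K s) j
  obtain ⟨X, hXd⟩ : ∃ X : ℝ, X = (L : ℝ) * Vp F W b z t := ⟨_, rfl⟩
  have hX : 0 ≤ X := by rw [hXd]; positivity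
  rw [← hXd] at hcnt hXi1 herr ⊢
  have hAb1 := Ab_one k ε₁ hε (by linarith)
  have hAb0 : 0 < Ab k ε₁ := by linarith
  have hp1 : (1 : ℝ) ≤ 2 ^ k := one_le_pow₀ (by norm_num)
  have hE8 : 2 * (1 / 2 : ℝ) ^ b₀ ≤ 1 / 8 := by
    refine hbE.trans ((pow_le_of_le_one hε.le (by linarith) (by omega)).trans hε8)
  have hXi2 : ∀ i, Xi i ≤ 2 * X := by
    intro i
    apply X_up (Ioc M (M + L)) (nuI F W b z t)
      (fun K => if (W * (K + t i) + b).Prime then 1 else 0) _ _ _ X (Xi i)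
      (2 * (1 / 2 : ℝ) ^ b₀) (ls Gi Y ε₁ υ) R hR.le (Rr i) hX (hXi0 i) hE8
      (fun K _ => by unfold nuI; split_ifs <;> norm_num)
      (fun K => by split_ifs <;> norm_num) hcnt (hC2 i)
    have h1 : Rr i (fun _ => none) ≤ ∑ T, 5 ^ nc T * Rr i T := by
      have h2 := single_le_sum (f := fun T => 5 ^ nc T * Rr i T) (s := univ)
        (fun T _ => mul_nonneg (by positivity) (hRr i T))
        (mem_univ (fun _ : Pg Gi Y ε₁ υ => (none : Option (Fin (2 ^ k)))))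
      have h3 : nc (fun _ : Pg Gi Y ε₁ υ => (none : Option (Fin (2 ^ k)))) = 0 := by simp [nc]
      simp only [h3, pow_zero, one_mul] at h2
      exact h2
    refine h1.trans ((herr i).trans ?_)
    apply div_le_div_of_nonneg_left hX (by norm_num)
    nlinarith
  have hasm := asmP k R (1 / 4) hR (by norm_num) m hk ε₁ hε hεe υ
    (qs Gi Y ε₁ υ) (mus Gi Y ε₁ υ) (ls Gi Y ε₁ υ) hd
    (N := Ioc M (M + L)) (ν := nuI F W b z t)
    (ξ := xi Gi W b t (fun s : Pg Gi Y ε₁ υ => (s : ℕ))) (X := X)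
    (E := 2 * (1 / 2 : ℝ) ^ b₀) hX (by positivity) hbE hcnt
    (fun K _ => by unfold nuI; split_ifs <;> norm_num)
    (fun i K => if (W * (K + t i) + b).Prime then 1 else 0)
    (fun i K => by split_ifs <;> norm_num) Xi hXi0 hXi1 hXi2 Rr hRr hC2
    (fun K hK _ i hp s hs => by
      exfalso
      have h1 := (hξ K s i).1 hs
      have h2 : (W * (K + t i) + b).Prime := by
        by_contra h
        exact hp (if_neg h)
      have h5 : (s : ℕ) ∣ W * (K + t i) + b := by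
        unfold Gi at h1
        exact Int.natCast_dvd_natCast.1 h1
      have h0 := Pg_mem Gi Y ε₁ υ hY2' s
      have h6 := (Nat.prime_dvd_prime_iff_eq h0.1 h2).1 h5
      have h7 := h0.2.2.2.1
      have h8 := (tt_lt Y (s : ℕ) υ hY2' h0.1.pos).1 h7
      rw [h6] at h8
      have h9 := hbig.trans_lt' h8
      have h10 : W * (K + t i) + b < W * M + b := by exact_mod_cast h9
      rw [mem_Ioc] at hK
      have h11 : W * M ≤ W * (K + t i) := Nat.mul_le_mul_left _ (by omega)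
      omega)
  have hIf : 1 ≤ If (mus Gi Y ε₁ υ) (ls Gi Y ε₁ υ) R k :=
    one_le_pow₀ (I2_one hd hε hR k)
  have hB0 : 0 < (Ab k ε₁ * 2 ^ c') ^ 2 := by positivity
  have hup := sum_le_sum (s := Ioc M (M + L)) fun K hK =>
    pt_upQ F ((Ab k ε₁ * 2 ^ c') ^ 2)
      (Lam none (qs Gi Y ε₁ υ) (mus Gi Y ε₁ υ) (yf (ls Gi Y ε₁ υ) R k)
        (xi Gi W b t (fun s : Pg Gi Y ε₁ υ => (s : ℕ)) K) ^ 2) W b z k m M L t K
        hK (sq_nonneg _)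
      (Lam_fin k 1 R hR ε₁ hε υ hυ (qs Gi Y ε₁ υ) (mus Gi Y ε₁ υ)
        (ls Gi Y ε₁ υ) _ hd _ c' (few_P W b N k c' Y K ε₁ υ hε t hN hW hc' e4 (by
          rw [mem_Ioc] at hK
          omega) (by
          rw [mem_Ioc] at hK
          omega) _ (fun s j => hξ K s j)))
  have hsum : ∑ K ∈ Ioc M (M + L), (if K ∈ gq F z W b t m M L then
      (Ab k ε₁ * 2 ^ c') ^ 2 * 2 ^ k else 0) =
      (gq F z W b t m M L).card * ((Ab k ε₁ * 2 ^ c') ^ 2 * 2 ^ k) := by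
    rw [← sum_filter, sum_const, nsmul_eq_mul]
    congr 2
    congr 1
    ext K
    rw [mem_filter]
    constructor
    · exact fun h => h.2
    · intro h
      refine ⟨?_, h⟩
      unfold gq at h
      exact (mem_filter.1 h).1
  rw [hsum] at hup
  have herr2 : ∑ i : Fin (2 ^ k), Ab k ε₁ * ∑ U, 5 ^ nc U * Rr i U ≤ X / 8 := by
    calc ∑ i : Fin (2 ^ k), Ab k ε₁ * ∑ U, 5 ^ nc U * Rr i U ≤
        ∑ _i : Fin (2 ^ k), Ab k ε₁ * (X / (8 * 2 ^ k * Ab k ε₁)) :=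
          sum_le_sum fun i _ => mul_le_mul_of_nonneg_left (herr i) hAb0.le
      _ = X / 8 := by
          rw [sum_const, card_univ, Fintype.card_fin, nsmul_eq_mul]
          push_cast
          field_simp
  have h1 := hasm.trans (add_le_add hup herr2)
  have h2 : 2 * X ≤ 2 * (X * If (mus Gi Y ε₁ υ) (ls Gi Y ε₁ υ) R k) := by nlinarith
  rw [div_mul_eq_mul_div, div_le_iff₀ (by positivity), one_mul]
  calc X ≤ (gq F z W b t m M L).card * ((Ab k ε₁ * 2 ^ c') ^ 2 * 2 ^ k) := by linarith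
    _ = _ := by ring

open Classical in
/-- **The core.** -/
theorem coreQ (F : ℤ → ℤ) (g : ℕ) (hF : Sys g F)
    (hFid : ∀ p : ℕ, p.Prime → ∀ n : ℤ, (p : ℤ) ∣ n → (p : ℤ) ∣ F n) (m Q X₀ : ℕ) (hQ : 0 < Q) :
    ∃ k W₀ W : ℕ, 0 < W ∧ Squarefree W₀ ∧ 0 < W₀ ∧ W = Q * W₀ ∧
      (∀ p : ℕ, p.Prime → p ≤ X₀ * (2 ^ k + 1) → p ∣ W₀) ∧
      (∀ p : ℕ, p.Prime → p ≤ g * 2 ^ k + 1 → p ∣ W) ∧
      g ≤ W ∧ ∃ ε₁ c : ℝ, 0 < ε₁ ∧ ε₁ ≤ 1 / 24 ∧ X₀ * (2 ^ k + 1) * ε₁ ≤ 1 / 12 ∧ 0 < c ∧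
      (∀ A₀ : ℕ, ∃ Y₀ : ℕ, ∀ Y : ℕ, Y₀ ≤ Y → ∀ (t : Fin (2 ^ k) → ℕ), Function.Injective t →
        (∀ i, (t i : ℝ) ≤ Real.log Y ^ A₀) → ∀ b : ℕ, b ≤ 2 * W →
        (∀ p : ℕ, p.Prime → p ∣ W → ¬ p ∣ b) → ∀ M L z : ℕ, Win W Y M L →
        (z : ℝ) < (Y : ℝ) ^ ε₁ → (Y : ℝ) ^ ε₁ ≤ z + 1 →
        c * (L * Vp F W b z t) ≤ ((gq F z W b t m M L).card : ℝ) ∧
        0 < Vp F W b z t ∧ 1 ≤ Real.log Y ^ (2 * (g * 2 ^ k) + 1) * Vp F W b z t) ∧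
      ∀ (t : Fin (2 ^ k) → ℕ), ∀ b : ℕ,
      ∀ β : ℕ, (∀ j, F (((W * t j + b : ℕ) : ℤ) - (β : ℤ)) ≠ 0) → ∀ η : ℝ, 0 < η →
        ∃ Y₀ : ℕ, ∀ Y : ℕ, Y₀ ≤ Y → ∀ M L z : ℕ, Win W Y M L → (z : ℝ) < (Y : ℝ) ^ ε₁ →
        0 < Vp F W b z t → 1 ≤ Real.log Y ^ (2 * (g * 2 ^ k) + 1) * Vp F W b z t →
        ∀ s : Finset ℕ,
        (∀ K ∈ s, K ∈ Ioc M (M + L) ∧ (W * K + β).Prime ∧
          ∀ p ∈ PS W z, ∀ i, ¬ (p : ℤ) ∣ F ((W * (K + t i) + b : ℕ) : ℤ)) →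
        (s.card : ℝ) ≤ η * (L * Vp F W b z t) := by
  obtain ⟨Cz, hCz1, hCz⟩ := c1z
  obtain ⟨Cp, hCp1, hCp⟩ := cP'
  -- the number of the slots
  obtain ⟨k, hk⟩ : ∃ k : ℕ, 3 * ((m : ℝ) + 1) * 1474560 ≤ 1 / 4 * (1 / 8) * k := by
    obtain ⟨k, hk⟩ := exists_nat_ge (3 * ((m : ℝ) + 1) * 1474560 * 32)
    refine ⟨k, ?_⟩
    linarith
  obtain ⟨W₀, hW₀pos, hW₀sq, hW₀p, hgW₀⟩ := exW (Cz * (g * 2 ^ k + 1) + (Cp * (g * 2 ^ k + 1) +
    (g * 2 ^ k + 1)) + X₀ * (2 ^ k + 1)) (g + 1)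
  obtain ⟨W, hWdef⟩ : ∃ W, W = Q * W₀ := ⟨_, rfl⟩
  have hWpos : 0 < W := by rw [hWdef]; exact Nat.mul_pos hQ hW₀pos
  have hWp : ∀ p : ℕ, p.Prime → p ≤ Cz * (g * 2 ^ k + 1) + (Cp * (g * 2 ^ k + 1) +
    (g * 2 ^ k + 1)) → p ∣ W := fun p hp hpk => by
    rw [hWdef]
    exact (hW₀p p hp (by omega)).mul_left _
  have hgW : g + 1 ≤ W := by
    rw [hWdef]
    exact hgW₀.trans (Nat.le_mul_of_pos_left _ hQ)
  -- the presieve
  obtain ⟨ε₁, b₀, hε, hε1, hεe, hb₀, hbE, hεb⟩ := par 1 (1 / 8) k (Cz + Cp + X₀ * (2 ^ k + 1))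
    (Cz * (g * 2 ^ k + 1) + Cp * (g * 2 ^ k + 1)) (by norm_num) (by norm_num) (1 / 24) (1 / 12)
    (by norm_num) (by norm_num)
  have hb1 : 1 ≤ b₀ := by
    have : 1 ≤ Cz * (g * 2 ^ k + 1) := Nat.mul_pos hCz1 (by omega)
    omega
  have hb1r : (1 : ℝ) ≤ b₀ := by exact_mod_cast hb1
  have hεz : 2 * ε₁ * (Cz * b₀) ≤ 1 / 12 := by
    refine le_trans ?_ hεb
    push_cast
    have h1 : (0 : ℝ) ≤ 2 * ε₁ * (Cp * b₀) := by positivity
    have h2 : (0 : ℝ) ≤ 2 * ε₁ * ((X₀ * (2 ^ k + 1)) * b₀) := by positivity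
    linarith
  have hεp : 2 * ε₁ * (Cp * b₀) ≤ 1 / 12 := by
    refine le_trans ?_ hεb
    push_cast
    have h1 : (0 : ℝ) ≤ 2 * ε₁ * (Cz * b₀) := by positivity
    have h2 : (0 : ℝ) ≤ 2 * ε₁ * ((X₀ * (2 ^ k + 1)) * b₀) := by positivity
    linarith
  have hεX : X₀ * (2 ^ k + 1) * ε₁ ≤ 1 / 12 := by
    refine le_trans ?_ hεb
    push_cast
    have h1 : (0 : ℝ) ≤ 2 * ε₁ * (Cz * b₀) := by positivity
    have h2 : (0 : ℝ) ≤ 2 * ε₁ * (Cp * b₀) := by positivity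
    have h3 : (X₀ : ℝ) * (2 ^ k + 1) * ε₁ ≤ 2 * ε₁ * ((X₀ * (2 ^ k + 1)) * b₀) := by
      have h4 : (0 : ℝ) ≤ X₀ * (2 ^ k + 1) * ε₁ := by positivity
      nlinarith
    linarith
  obtain ⟨cV, hcV, hVlow⟩ := Vp_low g (2 ^ k)
  have hε11 : ε₁ ≤ 1 := by linarith
  have hAb := Ab_one k ε₁ hε hε11
  have hom := om_bd k 1 ε₁ (by norm_num) hε hε11
  obtain ⟨c', hc'⟩ : ∃ c' : ℕ, ((2 ^ k : ℕ) : ℝ) * (2 / ε₁) ≤ c' := exists_nat_ge _
  refine ⟨k, W₀, W, hWpos, hW₀sq, hW₀pos, hWdef, fun p hp hpk => hW₀p p hp (by omega),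
    fun p hp hpk => hWp p hp (by omega), by omega, ε₁,
    1 / (2 ^ k * (Ab k ε₁ * 2 ^ c') ^ 2), hε, hε1, hεX, by positivity, ?_,
    fun t b β hβ η hη => disc Cp hCp1 hCp g (2 ^ k) b₀ W (2 * (g * 2 ^ k) + 1) (by omega)
    hWpos (fun p hp hpk => hWp p hp (by omega)) F hF t b β hβ ε₁ hε hεp η hη⟩
  intro A₀
  obtain ⟨Y2, hY2⟩ := dat_of 1 Gi (fun p hp => (Gi_sys.root p hp).1) ε₁ (1 / 8) (1 / 8)
    (om k 1 ε₁) hε le_rfl (by norm_num) hom.1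
    (mer_Gi ε₁ (1 / 8) (1 / 40) hε (by norm_num) (by norm_num))
  obtain ⟨Y3, hY3⟩ := exJ ε₁ hε
  obtain ⟨Y5, hY5⟩ := err_slot W (g * 2 ^ k) (g * 2 ^ k + 5 * 2 ^ k) Cp b₀ (2 ^ k)
    (2 * (g * 2 ^ k) + 2) hWpos (by omega) (by omega)
    (by have : 1 ≤ 2 ^ k := Nat.one_le_two_pow; omega) (Nat.mul_pos hCp1 hb1) ε₁ (1 / 8) (1 / 8)
    (by norm_num) hεp le_rfl
  obtain ⟨Y6, hY6⟩ := pi_low
  obtain ⟨N₁, hN₁⟩ : ∃ N₁ : ℝ, N₁ = 1 / (4 * ε₁) := ⟨_, rfl⟩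
  have hN₁0 : 0 < N₁ := by rw [hN₁]; positivity
  have hev := (numsP W 0 1 0 (2 * (g * 2 ^ k)) ε₁
    (2 ^ b₀ * 3 ^ (2 * (g * 2 ^ k)) / cV)
    (max (3 ^ (2 * (g * 2 ^ k)) / cV) (64 * W * 2 ^ k * Ab k ε₁)) (N₁ * 2 ^ b₀) hε
    (by positivity) (by positivity) hWpos).and (numsU W A₀ ε₁ hε hWpos)
  obtain ⟨Y4, hY4⟩ := eventually_atTop.1 hev
  refine ⟨max (max Y2 Y3) (max Y4 (max Y5 Y6)), ?_⟩
  intro Y hY t ht htA b hbW2 hbW M L z hwin hz1 hz2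
  obtain ⟨N, hN, hNA⟩ : ∃ N : ℕ, (∀ i, t i ≤ N) ∧ (N : ℝ) ≤ Real.log Y ^ A₀ := by
    refine ⟨univ.sup t, fun i => Finset.le_sup (f := t) (mem_univ i), ?_⟩
    obtain ⟨i, -, hi⟩ := Finset.exists_mem_eq_sup (univ : Finset (Fin (2 ^ k)))
      (univ_nonempty_iff.2 ⟨⟨0, by positivity⟩⟩) t
    rw [hi]
    exact htA i
  simp only [max_le_iff] at hY
  obtain ⟨⟨k2, k3⟩, k4, k5, k6⟩ := hY
  have hd := hY2 Y k2
  obtain ⟨J, hJ1, hJ2⟩ := hY3 Y k3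
  obtain ⟨⟨-, e2, e3, -, e5, e6, e7, e8⟩, e9⟩ := hY4 Y k4
  obtain ⟨e1, e4⟩ := e9 N b hNA hbW2
  obtain ⟨w1, w2, w3, w4, w5⟩ := hwin
  have e3a := (le_max_left _ _).trans e3
  have e3b := (le_max_right _ _).trans e3
  have hY3' : 3 ≤ Y := by omega
  have hY2' : 2 ≤ Y := by omega
  have hYr : (3 : ℝ) ≤ Y := by exact_mod_cast hY3'
  have hY0 : (0 : ℝ) < Y := by linarith
  have hY1r : (1 : ℝ) ≤ Y := by linarith
  have hlY : 0 < Real.log Y := Real.log_pos (by linarith)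
  -- the sieving limit
  have hzJ : z < 2 ^ 2 ^ J := by
    have : (z : ℝ) < 2 ^ 2 ^ J := hz1.trans_le hJ1
    exact_mod_cast this
  have hWN0 : (0 : ℝ) ≤ W * N := by positivity
  have hWz : W + 1 ≤ z := by
    have h2 : (W : ℝ) + 1 ≤ z := by linarith
    exact_mod_cast h2
  have hV := hVlow F hF W b J z t (fun p hp hpk => hWp p hp (by omega)) hzJ
  have hV0 : 0 < Vp F W b z t := lt_of_lt_of_le (by positivity) hV
  obtain ⟨hV2, hV3⟩ := num1 Y J (2 * (g * 2 ^ k)) ε₁ cV (Vp F W b z t) hY3' hε11 hcV hJ2 hV e3a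
  have hLY : (Y : ℝ) ^ (1 / 2 : ℝ) ≤ L := e6 L w4
  have hD := num2 Y J (2 * (g * 2 ^ k)) Cz b₀ ε₁ cV (Vp F W b z t) L (1 / 2) (2 * (1 / 8)) hY3' hcV
    hJ2 hV2 (by norm_num; linarith) hLY (by
      refine e2.trans (le_of_eq ?_)
      norm_num)
  have hU : ∀ (K : ℕ) (s : Pg Gi Y ε₁ (1 / 8)) i j,
      ((s : ℕ) : ℤ) ∣ Gi ((W * (K + t i) + b : ℕ) : ℤ) →
      ((s : ℕ) : ℤ) ∣ Gi ((W * (K + t j) + b : ℕ) : ℤ) → i = j := by
    intro K s i j h1 h2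
    obtain ⟨h3, h4, -⟩ := Pg_mem Gi Y ε₁ (1 / 8) hY2' s
    refine uniq Gi_sys W b hWpos hWpos t ht N hN (s : ℕ) h3 ?_ K i j h1 h2
    have h5 : ((W * N : ℕ) : ℝ) ^ 1 < (s : ℕ) := by
      push_cast
      have : (0 : ℝ) ≤ W := Nat.cast_nonneg W
      rw [pow_one]
      linarith
    exact_mod_cast h5
  have hcnt := cnt_of Cz b₀ W J z (2 ^ k) b M L F Gi t Y hY2' ε₁ (1 / 8) (2 * (1 / 8)) Gi_sys.per
    hWpos (by omega) hz1
    (fun D a hD1 hD2 s hs => hCz g (2 ^ k) b₀ W (by omega) hWpos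
      (fun p hp hpk => hWp p hp (by omega)) F hF
      t b J z D a M L hzJ.le hD1 hD2 s hs) hU hD
  -- the slots
  have hbigM : (Y : ℝ) ^ (1 / 8 : ℝ) ≤ ((W * M : ℕ) : ℝ) := by
    have h4 : (Y : ℝ) ≤ 2 * (W * M : ℕ) := by exact_mod_cast w1
    linarith
  have hzM : z < W * M := by
    have h1 : (Y : ℝ) ^ ε₁ ≤ (Y : ℝ) ^ (1 / 8 : ℝ) :=
      Real.rpow_le_rpow_of_exponent_le hY1r (by linarith)
    have h5 : (z : ℝ) < ((W * M : ℕ) : ℝ) := by linarith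
    exact_mod_cast h5
  have hti : ∀ i, W * t i ≤ W * N := fun i => Nat.mul_le_mul_left _ (hN i)
  have hWW : W * (N + 1) = W * N + W := by ring
  have hMLW : W * (M + L) = W * M + W * L := by ring
  have hXlow : ∀ i, 1 / 4 * ε₁ * (L * Vp F W b z t) ≤
      (H343E.pi1 (W * (M + L) + (W * t i + b)) - H343E.pi1 (W * M + (W * t i + b))) /
        (Nat.totient W : ℝ) * VpP F W b (W * t i + b) z t := by
    intro i
    apply X_low F hFid W b z Y L t i ε₁ _ hWpos (by omega) hε hY2' hV0 hz2 e5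
    have h1 := hti i
    have h2 := hY6 Y k6 (W * M + (W * t i + b)) (W * (M + L) + (W * t i + b)) (by omega)
      (by omega) (by omega)
    refine le_trans (le_of_eq ?_) h2
    congr 1
    push_cast
    ring
  have hX0 : 0 ≤ 1 / 4 * ε₁ * (L * Vp F W b z t) := by positivity
  have hbco : ∀ i, (W * t i + b).Coprime W := by
    intro i
    apply Nat.coprime_of_dvd
    intro p hp h1 h2
    have h3 : p ∣ b := (Nat.dvd_add_right (h2.mul_right _)).1 h1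
    exact hbW p hp h2 h3
  have hφT : ∀ T : Pg Gi Y ε₁ (1 / 8) → Option (Fin (2 ^ k)), lt (ls Gi Y ε₁ (1 / 8)) T ≤ 2 * (1 / 8) →
      (DT (fun s : Pg Gi Y ε₁ (1 / 8) => (s : ℕ)) T : ℝ) ≤ (1 + (1 / 2 : ℝ) ^ b₀ / 2) *
        Nat.totient (DT (fun s : Pg Gi Y ε₁ (1 / 8) => (s : ℕ)) T) := by
    intro T hT
    have hnc : (nc T : ℝ) ≤ N₁ := by
      have h1 : (nc T : ℝ) * ε₁ ≤ lt (ls Gi Y ε₁ (1 / 8)) T := by
        unfold nc lt
        rw [← sum_filter_add_sum_filter_not univ (fun s => T s ≠ none)]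
        have h2 : (((univ.filter (fun s => T s ≠ none)).card : ℕ) : ℝ) * ε₁ ≤
            ∑ s ∈ univ.filter (fun s => T s ≠ none), (if T s = none then 0 else
              ls Gi Y ε₁ (1 / 8) s) := by
          rw [← nsmul_eq_mul]
          apply card_nsmul_le_sum
          intro s hs
          rw [mem_filter] at hs
          rw [if_neg hs.2]
          exact (Pg_mem Gi Y ε₁ (1 / 8) hY2' s).2.2.1
        have h3 : 0 ≤ ∑ s ∈ univ.filter (fun s => ¬ T s ≠ none), (if T s = none then 0 else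
              ls Gi Y ε₁ (1 / 8) s) := by
          apply sum_nonneg
          intro s _
          split_ifs
          · exact le_rfl
          · exact hε.le.trans (Pg_mem Gi Y ε₁ (1 / 8) hY2' s).2.2.1
        linarith
      rw [hN₁, le_div_iff₀ (by positivity)]
      linarith
    have hZ : (0 : ℝ) < (Y : ℝ) ^ ε₁ := by positivity
    have hβ0 : (0 : ℝ) < (1 / 2 : ℝ) ^ b₀ := by positivity
    have hx : N₁ / (Y : ℝ) ^ ε₁ ≤ (1 / 2 : ℝ) ^ b₀ / 8 := by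
      rw [div_le_iff₀ hZ]
      have h1 : (1 / 2 : ℝ) ^ b₀ * 2 ^ b₀ = 1 := by
        rw [← mul_pow]
        norm_num
      have h2 : (1 / 2 : ℝ) ^ b₀ / 8 * (8 * (N₁ * 2 ^ b₀)) ≤ (1 / 2 : ℝ) ^ b₀ / 8 * (Y : ℝ) ^ ε₁ :=
        mul_le_mul_of_nonneg_left e8 (by positivity)
      have h3 : (1 / 2 : ℝ) ^ b₀ / 8 * (8 * (N₁ * 2 ^ b₀)) = N₁ * ((1 / 2 : ℝ) ^ b₀ * 2 ^ b₀) := by
        ring
      rw [h3, h1, mul_one] at h2
      exact h2
    have hhalf : (1 / 2 : ℝ) ^ b₀ ≤ 1 := pow_le_one₀ (by norm_num) (by norm_num)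
    have h4 := tot_DT (fun s : Pg Gi Y ε₁ (1 / 8) => (s : ℕ))
      (fun s => (Pg_mem Gi Y ε₁ (1 / 8) hY2' s).1) Subtype.val_injective T ((Y : ℝ) ^ ε₁) N₁ hZ
      (fun s => (Pg_mem Gi Y ε₁ (1 / 8) hY2' s).2.1) hnc (by linarith)
    refine h4.trans ?_
    apply mul_le_mul_of_nonneg_right _ (Nat.cast_nonneg _)
    linarith
  have hC2 : ∀ i, CntA (Ioc M (M + L))
      (fun K => nuI F W b z t K * (if (W * (K + t i) + b).Prime then 1 else 0))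
      (xi Gi W b t (fun s : Pg Gi Y ε₁ (1 / 8) => (s : ℕ)))
      (fun s => rd (some i) (qs Gi Y ε₁ (1 / 8) s) 0)
      ((H343E.pi1 (W * (M + L) + (W * t i + b)) - H343E.pi1 (W * M + (W * t i + b))) /
        (Nat.totient W : ℝ) * VpP F W b (W * t i + b) z t) (2 * (1 / 2 : ℝ) ^ b₀)
      (fun T => if lt (ls Gi Y ε₁ (1 / 8)) T ≤ 2 * (1 / 8) then
        erP (g * 2 ^ k) Cp b₀ W J z (DT (fun s : Pg Gi Y ε₁ (1 / 8) => (s : ℕ)) T)
          (W * M + (W * t i + b)) (W * (M + L) + (W * t i + b)) else 0)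
      (fun T => lt (ls Gi Y ε₁ (1 / 8)) T ≤ 2 * (1 / 8)) := by
    intro i
    refine cntA_of b₀ W z (2 ^ k) b M L F t Y hY2' ε₁ (1 / 8) (1 / 8) i hWpos (by omega) hz1 _
      (hX0.trans (hXlow i))
      (fun D => erP (g * 2 ^ k) Cp b₀ W J z D (W * M + (W * t i + b))
        (W * (M + L) + (W * t i + b)))
      (fun D => erP_nonneg _ _ _ _ _ _ _ _ _) ?_ hU hφT ?_
    · intro D a hD1 hD2 hD3 hD4 s hs
      have h1 := hCp g (2 ^ k) b₀ W (by omega) hWpos (fun p hp hpk => hWp p hp (by omega)) F hF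
        t b J z D a M L (W * t i + b) hzJ.le hD1 hD2 hD3 (hbco i) hD4 (by omega) s hs
      have e : (H343E.pi1 (W * (M + L) + (W * t i + b)) - H343E.pi1 (W * M + (W * t i + b))) /
        ((Nat.totient W : ℝ) * Nat.totient D) * VpP F W b (W * t i + b) z t =
        (H343E.pi1 (W * (M + L) + (W * t i + b)) - H343E.pi1 (W * M + (W * t i + b))) /
        (Nat.totient W : ℝ) * VpP F W b (W * t i + b) z t / Nat.totient D := by
        rw [← div_div]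
        ring
      rw [e] at h1
      exact h1
    · refine hbigM.trans ?_
      exact_mod_cast (by omega : W * M ≤ W * M + b)
  have herr : ∀ i, ∑ T : Pg Gi Y ε₁ (1 / 8) → Option (Fin (2 ^ k)), 5 ^ nc T * (if lt (ls Gi Y ε₁ (1 / 8)) T ≤ 2 * (1 / 8) then
        erP (g * 2 ^ k) Cp b₀ W J z (DT (fun s : Pg Gi Y ε₁ (1 / 8) => (s : ℕ)) T)
          (W * M + (W * t i + b)) (W * (M + L) + (W * t i + b)) else 0) ≤
      L * Vp F W b z t / (8 * 2 ^ k * Ab k ε₁) := by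
    intro i
    have h1 := hti i
    have h2 := hY5 Y k5 z J (W * M + (W * t i + b)) (W * (M + L) + (W * t i + b)) (by omega)
      (by omega) (by omega) hz1 hJ2
    refine h2.trans ?_
    have hAb0 : 0 < Ab k ε₁ := by linarith
    rw [div_le_div_iff₀ (by positivity) (by positivity)]
    have h3 : (Y : ℝ) ≤ 8 * (W * L) := by exact_mod_cast w4
    have h4 : (Y : ℝ) * 1 ≤ (8 * (W * L)) * (Real.log Y ^ (2 * (g * 2 ^ k) + 1) *
        Vp F W b z t) := mul_le_mul h3 hV3 (by norm_num) (by positivity)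
    calc (Y : ℝ) * (8 * 2 ^ k * Ab k ε₁) ≤ (8 * (W * L)) * (Real.log Y ^ (2 * (g * 2 ^ k) + 1) *
        Vp F W b z t) * (8 * 2 ^ k * Ab k ε₁) := by
          apply mul_le_mul_of_nonneg_right _ (by positivity)
          linarith
      _ = L * Vp F W b z t * Real.log Y ^ (2 * (g * 2 ^ k) + 1) * (64 * W * 2 ^ k * Ab k ε₁) := by
          ring
      _ ≤ L * Vp F W b z t * Real.log Y ^ (2 * (g * 2 ^ k) + 1) * Real.log Y :=
          mul_le_mul_of_nonneg_left e3b (by positivity)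
      _ = L * Vp F W b z t * Real.log Y ^ (2 * (g * 2 ^ k) + 2) := by
          rw [pow_succ (Real.log (Y : ℝ)) (2 * (g * 2 ^ k) + 1)]
          ring
  refine ⟨?_, hV0, hV3⟩
  exact core1Q F g hF m k W c' N b₀ Y b M L z (1 / 8) (1 / 8) ε₁ (by linarith) (by norm_num) hWpos
    hk hε (by linarith) hεe hbE hc' t hN (by omega) w5 hd hU hV0 hcnt (by
      refine hbigM.trans ?_
      exact_mod_cast (by omega : W * M ≤ W * M + b)) _ (fun i => hX0.trans (hXlow i)) hXlow _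
    (fun i T => by
      split_ifs
      · exact erP_nonneg _ _ _ _ _ _ _ _ _
      · exact le_rfl) hC2 herr

end Pool.Agent.V8H34.PS
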