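import Pool.Agent.V8H2.MQ.Runs
import Pool.Agent.V8H34.PR.Runs2
import Pool.Agent.V8H34.PS.Core

set_option autoImplicit false

/-!
# Progressions of strings of primes `p` whose values at a polynomial are a fixed number times a rough number
-/

namespace Pool.Agent.V8H34.PS

open Finset Filter Polynomial
open Pool.Agent.TH423.SH (PS PIj)
open Pool.Agent.W23.DC
open Pool.Agent.Y882
open Pool.Agent.Y882.PX
open Pool.Agent.Y882.KW
open Pool.Agent.Y677.RSZ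
open Pool.Agent.R498.MT
open Pool.Agent.R498.MP
open Pool.Agent.V8H2.MQ
open Pool.Agent.V8H34.PR (dense_prog popular)

open Classical in
/-- the arguments with a given set of prime slots, and without the other primes -/
theorem manyQ (F : ℤ → ℤ) (W b M L z k m : ℕ) (c V : ℝ) (t : Fin (2 ^ k) → ℕ)
    (E : Finset ℕ) (β : ℕ → ℕ) (hc : 0 < c) (hV : 0 < V) (hL : (0 : ℝ) < L)
    (hgd : c * (L * V) ≤ ((gq F z W b t m M L).card : ℝ))
    (hE : ∀ y ∈ E, ∀ s : Finset ℕ, (∀ K ∈ s, K ∈ Ioc M (M + L) ∧ (W * K + β y).Prime ∧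
          ∀ p ∈ PS W z, ∀ i, ¬ (p : ℤ) ∣ F ((W * (K + t i) + b : ℕ) : ℤ)) →
        (s.card : ℝ) ≤ c / (2 * (E.card + 1)) * (L * V)) :
    ∃ (Hs : Finset (Fin (2 ^ k))) (A : Finset ℕ), m < Hs.card ∧
      c / (2 * 2 ^ 2 ^ k) * (L * V) ≤ A.card ∧
      ∀ K ∈ A, K ∈ Ioc M (M + L) ∧ (∀ p ∈ PS W z, ∀ i, ¬ (p : ℤ) ∣ F ((W * (K + t i) + b : ℕ) : ℤ)) ∧
        (∀ i, (W * (K + t i) + b).Prime ↔ i ∈ Hs) ∧ ∀ y ∈ E, ¬ (W * K + β y).Prime := by
  have hX : 0 ≤ (L : ℝ) * V := by positivity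
  obtain ⟨Gd, hGd⟩ : ∃ Gd, Gd = gq F z W b t m M L := ⟨_, rfl⟩
  rw [← hGd] at hgd
  have hmem : ∀ K ∈ Gd, K ∈ Ioc M (M + L) ∧ (∀ p ∈ PS W z, ∀ i, ¬ (p : ℤ) ∣ F ((W * (K + t i) + b : ℕ) : ℤ)) ∧
      m < (univ.filter (fun i => (W * (K + t i) + b).Prime)).card := by
    intro K hK
    rw [hGd] at hK
    unfold gq at hK
    rw [mem_filter] at hK
    refine ⟨hK.1, hK.2.1, ?_⟩
    have h3 := hK.2.2
    convert h3
  have h1 := discard_sets Gd E (fun y => Gd.filter (fun K => (W * K + β y).Prime)) c (L * V) hX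
    hgd (by
    intro y hy
    apply hE y hy
    intro K hK
    have hK' := mem_filter.1 hK
    obtain ⟨g1, g2, -⟩ := hmem K hK'.1
    exact ⟨g1, hK'.2, g2⟩) hc
  obtain ⟨G', hG'⟩ : ∃ G', G' = Gd \ E.biUnion (fun y => Gd.filter (fun K =>
    (W * K + β y).Prime)) := ⟨_, rfl⟩
  have h1' : c / 2 * (L * V) ≤ (G'.card : ℝ) := by
    rw [hG']
    exact h1
  have hG'2 : ∀ K ∈ G', K ∈ Gd ∧ ∀ y ∈ E, ¬ (W * K + β y).Prime := by
    intro K hK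
    have hK := Finset.mem_sdiff.1 (hG' ▸ hK)
    refine ⟨hK.1, fun y hy h => hK.2 ?_⟩
    rw [mem_biUnion]
    exact ⟨y, hy, mem_filter.2 ⟨hK.1, h⟩⟩
  have hpos : 0 < c / 2 * (L * V) := by positivity
  have hne : G'.Nonempty := by
    rw [← card_pos]
    have : (0 : ℝ) < (G'.card : ℝ) := hpos.trans_le h1'
    exact_mod_cast this
  obtain ⟨Hs, hHs, hle⟩ := pigE (2 ^ k) m G' (fun K => univ.filter (fun i =>
      (W * (K + t i) + b).Prime)) hne (by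
    intro K hK
    exact (hmem K (hG'2 K hK).1).2.2)
  refine ⟨Hs, G'.filter (fun K => univ.filter (fun i => (W * (K + t i) + b).Prime) = Hs), hHs,
    ?_, ?_⟩
  · rw [div_mul_eq_mul_div, div_le_iff₀ (by positivity)]
    have h3 : ((G'.card : ℕ) : ℝ) ≤ 2 ^ 2 ^ k *
        ((G'.filter (fun K => univ.filter (fun i => (W * (K + t i) + b).Prime) = Hs)).card : ℝ) := by
      exact_mod_cast hle
    have h4 : c / 2 * (L * V) * 2 = c * (L * V) := by ring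
    linarith
  · intro K hK
    rw [mem_filter] at hK
    have hK1 := hG'2 K hK.1
    obtain ⟨g1, g2, -⟩ := hmem K hK1.1
    refine ⟨g1, g2, fun i => ?_, hK1.2⟩
    rw [← hK.2, mem_filter]
    simp only [mem_univ, true_and]

/-- a class modulo `W` in a given class modulo `q` -/
theorem exbq2 {g : ℕ} {F : ℤ → ℤ} (hF : Pool.Agent.Y677.RSZ.Sys g F) (q W₀ W a : ℕ) (hq : 0 < q)
    (hW0 : 0 < W₀) (hW : Squarefree W₀) (hWeq : W = q * W₀) :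
    ∃ b < W, b ≡ a [MOD q] ∧ ∀ p : ℕ, p.Prime → p ∣ W → ¬ p ∣ q → ¬ (p : ℤ) ∣ F b := by
  obtain ⟨W₁, hW₁⟩ : ∃ W₁, W₁ = ∏ p ∈ W₀.primeFactors \ q.primeFactors, p := ⟨_, rfl⟩
  have hW₁0 : 0 < W₁ := by
    rw [hW₁]
    exact Finset.prod_pos fun p hp =>
      (Nat.prime_of_mem_primeFactors (Finset.mem_sdiff.1 hp).1).pos
  have hW₁d : W₁ ∣ W₀ := by
    rw [hW₁]
    refine (Finset.prod_dvd_prod_of_subset _ _ _ Finset.sdiff_subset).trans ?_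
    rw [Nat.prod_primeFactors_of_squarefree hW]
  have hW₁s : Squarefree W₁ := hW.squarefree_of_dvd hW₁d
  have hcop : Nat.Coprime q W₁ := by
    rw [hW₁]
    apply Nat.Coprime.prod_right
    intro p hp
    rw [Finset.mem_sdiff] at hp
    have hpp := Nat.prime_of_mem_primeFactors hp.1
    rw [Nat.coprime_comm, hpp.coprime_iff_not_dvd]
    intro hd
    exact hp.2 (Nat.mem_primeFactors.2 ⟨hpp, hd, hq.ne'⟩)
  obtain ⟨b', hb'W, hb'⟩ := exb' hF W₁ hW₁0 hW₁s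
  obtain ⟨c, hc⟩ := Nat.chineseRemainder hcop a b'
  have hWpos : 0 < W := by rw [hWeq]; exact Nat.mul_pos hq hW0
  refine ⟨c % W, Nat.mod_lt _ hWpos, ?_, ?_⟩
  · refine Nat.ModEq.trans ?_ hc.1
    refine (Nat.mod_modEq c W).of_dvd ?_
    rw [hWeq]
    exact dvd_mul_right _ _
  · intro p hp hpW hpq
    have h1 : (c % W) ≡ c [MOD p] := (Nat.mod_modEq c W).of_dvd hpW
    have hpW₀ : p ∣ W₀ := by
      rw [hWeq] at hpW
      exact (hp.dvd_mul.1 hpW).resolve_left hpq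
    have hpW₁ : p ∣ W₁ := by
      rw [hW₁]
      apply Finset.dvd_prod_of_mem (fun p => p)
      rw [Finset.mem_sdiff]
      exact ⟨Nat.mem_primeFactors.2 ⟨hp, hpW₀, hW0.ne'⟩, fun h =>
        hpq (Nat.dvd_of_mem_primeFactors h)⟩
    have h2 : (c % W) ≡ b' [MOD p] := h1.trans (hc.2.of_dvd hpW₁)
    rw [per_mod hF.per hp _ _ h2]
    exact hb' p hp hpW₁

/-- division of a polynomial by a constant -/
theorem exQ (P : ℤ[X]) (W s σ : ℕ) (h1 : σ ∣ W) (h2 : (σ : ℤ) ∣ P.eval (s : ℤ)) :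
    ∃ Q : ℤ[X], C (σ : ℤ) * Q = P.comp (C (W : ℤ) * X + C (s : ℤ)) := by
  have h3 := sub_dvd_eval_sub (C (W : ℤ) * X + C (s : ℤ)) (C (s : ℤ)) (P.map C)
  rw [eval_map, eval_map] at h3
  have h4 : C (σ : ℤ) ∣ C (W : ℤ) * X + C (s : ℤ) - C (s : ℤ) := by
    rw [add_sub_cancel_right]
    exact (_root_.map_dvd C (by exact_mod_cast h1 : (σ : ℤ) ∣ (W : ℤ))).mul_right _
  have h5 : P.eval₂ C (C (s : ℤ)) = C (P.eval (s : ℤ)) := by
    have := Polynomial.comp_C (p := P) (a := (s : ℤ))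
    exact this
  rw [h5] at h3
  have h6 : C (σ : ℤ) ∣ C (P.eval (s : ℤ)) := _root_.map_dvd C h2
  obtain ⟨Q, hQ⟩ := (dvd_sub_left h6).1 (h4.trans h3)
  exact ⟨Q, hQ.symm⟩

theorem exQ_eval (P : ℤ[X]) (W σ : ℕ) (b t : ℕ) (Q : ℤ[X])
    (hQ : C (σ : ℤ) * Q = P.comp (C (W : ℤ) * X + C ((W * t + b : ℕ) : ℤ))) (K : ℕ) :
    (σ : ℤ) * Q.eval (K : ℤ) = P.eval ((W * (K + t) + b : ℕ) : ℤ) := by
  have h := congrArg (fun R : ℤ[X] => R.eval (K : ℤ)) hQ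
  simp only [eval_mul, eval_C, eval_comp, eval_add, eval_X] at h
  rw [h]
  congr 1
  push_cast
  ring

theorem Q_dvd (P : ℤ[X]) (W b σ : ℕ) {n : ℕ} (t : Fin n → ℕ) (Q : Fin n → ℤ[X])
    (hQ : ∀ i, C (σ : ℤ) * Q i = P.comp (C (W : ℤ) * X + C ((W * t i + b : ℕ) : ℤ)))
    (K p : ℕ) (hp : p.Prime) (hpσ : ¬ p ∣ σ) :
    (p : ℤ) ∣ (∏ i, Q i).eval (K : ℤ) ↔ ∃ i, (p : ℤ) ∣ P.eval ((W * (K + t i) + b : ℕ) : ℤ) := by
  have hp' : Prime (p : ℤ) := Nat.prime_iff_prime_int.1 hp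
  rw [eval_prod, hp'.dvd_finsetProd_iff]
  simp only [mem_univ, true_and]
  apply exists_congr
  intro i
  rw [← exQ_eval P W σ b (t i) (Q i) (hQ i) K, hp'.dvd_mul]
  constructor
  · exact fun h => Or.inr h
  · rintro (h | h)
    · exact absurd (by exact_mod_cast h) hpσ
    · exact h

theorem Q_ne (P : ℤ[X]) (hP : P ≠ 0) (W b σ : ℕ) (hW : 0 < W) {n : ℕ} (t : Fin n → ℕ)
    (Q : Fin n → ℤ[X])
    (hQ : ∀ i, C (σ : ℤ) * Q i = P.comp (C (W : ℤ) * X + C ((W * t i + b : ℕ) : ℤ))) :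
    ∏ i, Q i ≠ 0 := by
  rw [Finset.prod_ne_zero_iff]
  intro i _ h0
  have h1 := hQ i
  rw [h0, mul_zero] at h1
  have h2 := h1.symm
  rw [comp_eq_zero_iff] at h2
  rcases h2 with h2 | ⟨-, h2⟩
  · exact hP h2
  · have h3 := congrArg (fun Q : ℤ[X] => Q.coeff 1) h2
    simp at h3
    omega

/-- the primes of the modulus do not divide the quotients -/
theorem Q_ndvd (P : ℤ[X]) (W b σ q a₀ : ℕ) {n : ℕ} (t : Fin n → ℕ) (Q : Fin n → ℤ[X])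
    (hQ : ∀ i, C (σ : ℤ) * Q i = P.comp (C (W : ℤ) * X + C ((W * t i + b : ℕ) : ℤ)))
    (hqW : q ∣ W) (hb : b ≡ a₀ [MOD q])
    (K p : ℕ) (hp : p.Prime) (hpq : p * σ ∣ q) (hpa : ¬ ((p * σ : ℕ) : ℤ) ∣ P.eval (a₀ : ℤ)) :
    ¬ (p : ℤ) ∣ (∏ i, Q i).eval (K : ℤ) := by
  have hp' : Prime (p : ℤ) := Nat.prime_iff_prime_int.1 hp
  rw [eval_prod, hp'.dvd_finsetProd_iff]
  rintro ⟨i, -, hi⟩
  apply hpa
  have h1 : ((p * σ : ℕ) : ℤ) ∣ P.eval ((W * (K + t i) + b : ℕ) : ℤ) := by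
    rw [← exQ_eval P W σ b (t i) (Q i) (hQ i) K]
    push_cast
    rw [mul_comm]
    exact mul_dvd_mul_left _ hi
  have h2 : W * (K + t i) + b ≡ a₀ [MOD p * σ] := by
    have h3 : W * (K + t i) ≡ 0 [MOD p * σ] :=
      (Nat.modEq_zero_iff_dvd).2 ((hpq.trans hqW).mul_right _)
    simpa using h3.add (hb.of_dvd hpq)
  have h4 : ((p * σ : ℕ) : ℤ) ∣ (a₀ : ℤ) - ((W * (K + t i) + b : ℕ) : ℤ) := Nat.modEq_iff_dvd.1 h2
  have h5 := h4.trans (sub_dvd_eval_sub (a₀ : ℤ) ((W * (K + t i) + b : ℕ) : ℤ) P)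
  exact (dvd_sub_left h1).1 h5

theorem Q_rt (P : ℤ[X]) (W b σ : ℕ) {n : ℕ} (t : Fin n → ℕ) (Q : Fin n → ℤ[X])
    (hQ : ∀ i, C (σ : ℤ) * Q i = P.comp (C (W : ℤ) * X + C ((W * t i + b : ℕ) : ℤ)))
    (p : ℕ) (hp : p.Prime) (hpσ : ¬ p ∣ σ) :
    rt (fun x => (∏ i, Q i).eval x) p = rhoT (fun x => P.eval x) W b t p := by
  unfold rt rhoT
  exact Pool.Agent.Y833.RSZ.card_filter_eq fun r _ => Q_dvd P W b σ t Q hQ r p hp hpσ

/-- no fixed prime divisor -/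
theorem Q_adm (P : ℤ[X]) (g : ℕ) (hF : Sys g (fun n => P.eval n)) (W b σ q a₀ : ℕ) {n : ℕ}
    (t : Fin n → ℕ) (Q : Fin n → ℤ[X])
    (hQ : ∀ i, C (σ : ℤ) * Q i = P.comp (C (W : ℤ) * X + C ((W * t i + b : ℕ) : ℤ)))
    (hqW : q ∣ W) (hσq : σ ∣ q) (hba : b ≡ a₀ [MOD q])
    (hσ : ∀ p : ℕ, p.Prime → p ∣ q → p * σ ∣ q ∧ ¬ ((p * σ : ℕ) : ℤ) ∣ P.eval (a₀ : ℤ))
    (hWp : ∀ p : ℕ, p.Prime → p ≤ g * n → p ∣ W)
    (hb : ∀ p : ℕ, p.Prime → p ∣ W → ¬ p ∣ q → ¬ (p : ℤ) ∣ P.eval (b : ℤ)) (p : ℕ) (hp : p.Prime) :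
    ∃ x : ℤ, ¬ (p : ℤ) ∣ (∏ i, Q i).eval x := by
  classical
  by_cases hpq : p ∣ q
  · refine ⟨((0 : ℕ) : ℤ), ?_⟩
    obtain ⟨h1, h2⟩ := hσ p hp hpq
    exact Q_ndvd P W b σ q a₀ t Q hQ hqW hba 0 p hp h1 h2
  have hpσ : ¬ p ∣ σ := fun h => hpq (h.trans hσq)
  by_cases hpW : p ∣ W
  · refine ⟨((0 : ℕ) : ℤ), fun h => ?_⟩
    obtain ⟨i, hi⟩ := (Q_dvd P W b σ t Q hQ 0 p hp hpσ).1 h
    apply hb p hp hpW hpq
    refine (per_mod (F := fun n => P.eval n) hF.per hp b (W * (0 + t i) + b) ?_).2 hi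
    have h1 : 0 ≡ W * (0 + t i) [MOD p] := ((Nat.modEq_zero_iff_dvd).2 (hpW.mul_right _)).symm
    have h2 := h1.add_right b
    simpa using h2
  · have h1 := Pool.Agent.Y833.RSZ.rhoT_le (F := fun n => P.eval n) hp (hF.per p hp) W b t hpW
    have h2 := (hF.root p hp).1
    have h3 : rhoT (fun n => P.eval n) W b t p < p := by
      have h4 : n * rt (fun n => P.eval n) p ≤ n * g := Nat.mul_le_mul_left _ h2
      by_contra hcon
      push Not at hcon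
      exact hpW (hWp p hp (by rw [mul_comm]; omega))
    by_contra hcon
    push Not at hcon
    have h5 : rhoT (fun n => P.eval n) W b t p = p := by
      rw [← Q_rt P W b σ t Q hQ p hp hpσ]
      unfold rt
      rw [filter_true_of_mem, card_range]
      intro r _
      exact hcon r
    omega

/-- the sieve product of all primes is at most the one of the presieve -/
theorem VQ_le (P : ℤ[X]) (W b z L σ : ℕ) (hzL : z ≤ L) {n : ℕ} (t : Fin n → ℕ) (Q : Fin n → ℤ[X])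
    (hQ : ∀ i, C (σ : ℤ) * Q i = P.comp (C (W : ℤ) * X + C ((W * t i + b : ℕ) : ℤ)))
    (hσW : σ ∣ W) :
    V (fun x => (∏ i, Q i).eval x) 1 L ≤ Vp (fun x => P.eval x) W b z t := by
  classical
  obtain ⟨G, hG⟩ : ∃ G : ℤ[X], G = ∏ i, Q i := ⟨_, rfl⟩
  rw [← hG]
  unfold V Vp
  have hsub : PS W z ⊆ PS 1 L := by
    intro p hp
    unfold PS at hp ⊢
    simp only [mem_filter, mem_Icc] at hp ⊢
    exact ⟨⟨hp.1.1, hp.1.2.trans hzL⟩, hp.2.1, fun h => hp.2.1.one_lt.ne' (Nat.dvd_one.1 h)⟩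
  have hpr : ∀ p ∈ PS 1 L, p.Prime := by
    intro p hp
    unfold PS at hp
    exact (mem_filter.1 hp).2.1
  have hf : ∀ p ∈ PS 1 L, 0 ≤ 1 - (rt (fun x => G.eval x) p : ℝ) / p ∧
      1 - (rt (fun x => G.eval x) p : ℝ) / p ≤ 1 := by
    intro p hp
    have hp0 : (0 : ℝ) < p := by exact_mod_cast (hpr p hp).pos
    have h1 : rt (fun x => G.eval x) p ≤ p := by
      unfold rt
      refine (card_filter_le _ _).trans ?_
      rw [card_range]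
    have h2 : (rt (fun x => G.eval x) p : ℝ) ≤ p := by exact_mod_cast h1
    constructor
    · rw [sub_nonneg, div_le_one hp0]
      exact h2
    · have : 0 ≤ (rt (fun x => G.eval x) p : ℝ) / p := by positivity
      linarith
  rw [← Finset.prod_sdiff hsub]
  have h1 : ∏ p ∈ PS 1 L \ PS W z, (1 - (rt (fun x => G.eval x) p : ℝ) / p) ≤ 1 :=
    Finset.prod_le_one (fun p hp => (hf p (Finset.mem_sdiff.1 hp).1).1) (fun p hp => (hf p (Finset.mem_sdiff.1 hp).1).2)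
  have h2 : 0 ≤ ∏ p ∈ PS W z, (1 - (rt (fun x => G.eval x) p : ℝ) / p) :=
    Finset.prod_nonneg (fun p hp => (hf p (hsub hp)).1)
  have h3 : ∏ p ∈ PS W z, (1 - (rt (fun x => G.eval x) p : ℝ) / p) =
      ∏ p ∈ PS W z, (1 - (rhoT (fun x => P.eval x) W b t p : ℝ) / p) := by
    apply prod_congr rfl
    intro p hp
    have h4 : ¬ p ∣ W := by
      unfold PS at hp
      exact (mem_filter.1 hp).2.2
    rw [hG, Q_rt P W b σ t Q hQ p (hpr p (hsub hp)) (fun h => h4 (h.trans hσW))]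
  calc _ ≤ 1 * ∏ p ∈ PS W z, (1 - (rt (fun x => G.eval x) p : ℝ) / p) :=
        mul_le_mul_of_nonneg_right h1 h2
    _ = _ := by rw [one_mul, h3]

end Pool.Agent.V8H34.PS
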