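import Pool.Agent.V8H34.PS.Eng

set_option autoImplicit false

/-!
# Progressions of strings of primes `p` whose values at a polynomial are a fixed number times a rough number:
the theorem

It is `Pool.Agent.V8H34.PR.runs_prog_col` for a class modulo `q` at which the values have the fixed divisor `σ`.
-/

namespace Pool.Agent.V8H34.PS

open Finset Filter Polynomial
open Pool.Agent.TH423.SH (PS PIj)
open Pool.Agent.W23.DC
open Pool.Agent.Y882
open Pool.Agent.Y882.PX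
open Pool.Agent.Y882.KW
open Pool.Agent.Y677.RSZ
open Pool.Agent.R498.MT
open Pool.Agent.R498.MP
open Pool.Agent.V8H2.MQ
open Pool.Agent.V8H34.PR (dense_prog popular)

open Classical in
/-- **Progressions of strings of one colour.** -/
theorem runs_prog2 (P : ℤ[X]) (g : ℕ) (hg1 : 1 ≤ g)
    (hF : Pool.Agent.Y677.RSZ.Sys g (fun n => P.eval n))
    (hFid : ∀ p : ℕ, p.Prime → ∀ n : ℤ, (p : ℤ) ∣ n → (p : ℤ) ∣ P.eval n)
    (q a₀ σ : ℕ) (hq : 0 < q) (hσq : σ ∣ q) (hσ0 : (σ : ℤ) ∣ P.eval (a₀ : ℤ))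
    (ha₀ : ∀ p : ℕ, p.Prime → p ∣ q → ¬ p ∣ a₀)
    (hσ : ∀ p : ℕ, p.Prime → p ∣ q → p * σ ∣ q ∧ ¬ ((p * σ : ℕ) : ℤ) ∣ P.eval (a₀ : ℤ)) (m : ℕ) :
    ∃ (K₀ : ℕ) (δ : ℝ), 0 < δ ∧ ∀ HH : Finset ℕ, K₀ ≤ HH.card → ∀ E : Finset ℕ,
      (∀ h ∈ HH, ∀ y ∈ E, y ≠ h → P.eval ((h : ℤ) - y) ≠ 0 ∨
        ∃ p : ℕ, p.Prime ∧ p ∣ q ∧ (p : ℤ) ∣ (a₀ : ℤ) - ((h : ℤ) - y)) → ∀ C₀ l u : ℕ, 2 ≤ l → 1 ≤ u → ∃ B : ℕ,
      ∀ᶠ N : ℕ in atTop, ∀ χ : ℕ → Fin u, ∃ H ⊆ HH, m < H.card ∧ ∃ (A T : Finset ℕ) (cc : Fin u),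
        (∀ n ∈ A, χ n = cc) ∧
        (N : ℝ) / Real.log N ^ B ≤ T.card ∧
        (∀ n ∈ T, ∃ D : ℕ, 1 ≤ D ∧ (D : ℝ) ≤ Real.log N ^ B ∧ ∀ i < l, n + i * D ∈ A) ∧
        ∀ n ∈ A, N < n ∧ n + C₀ ≤ 2 * N ∧
          (∀ h ∈ H, (n + h).Prime ∧ n + h ≡ a₀ [MOD q]) ∧
          (∀ h ∈ H, ∀ p : ℕ, p.Prime → ¬ p ∣ q → (p : ℤ) ∣ P.eval ((n + h : ℕ) : ℤ) →
            (N : ℝ) ^ δ ≤ p) ∧
          ∀ y ∈ E, y ∉ H → ¬ (n + y).Prime := by
  obtain ⟨k, W₀, W, hW0, hW₀sq, hW₀0, hWeq, -, hWp, hgW, ε₁, c, hε, hε24, -, hc, hcore, hdis⟩ :=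
    coreQ (fun n => P.eval n) g hF hFid m q 0 hq
  have hW2 : 2 ≤ W := by
    have h1 : 2 ∣ W := hWp 2 Nat.prime_two (by
      have : 1 ≤ g * 2 ^ k := Nat.mul_pos hg1 (by positivity)
      omega)
    exact Nat.le_of_dvd hW0 h1
  refine ⟨W * 2 ^ k, ε₁, hε, ?_⟩
  intro HH hHH E hEH C₀ l u hl hu
  have hu0 : (0 : ℝ) < u := by exact_mod_cast hu
  obtain ⟨r, t, hrW, ht, hmem⟩ := shifts W (2 ^ k) hW0 HH hHH
  have hqW : q ∣ W := by
    rw [hWeq]
    exact dvd_mul_right _ _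
  obtain ⟨b₁, hb₁W, hb₁q, hb₁⟩ := exbq2 hF q W₀ W a₀ hq hW₀0 hW₀sq hWeq
  obtain ⟨b, hbd⟩ : ∃ b, b = W + b₁ := ⟨_, rfl⟩
  have hbq : b ≡ a₀ [MOD q] := by
    rw [hbd]
    have : W ≡ 0 [MOD q] := (Nat.modEq_zero_iff_dvd).2 hqW
    simpa using this.add hb₁q
  have hb' : ∀ p : ℕ, p.Prime → p ∣ W → ¬ p ∣ q → ¬ (p : ℤ) ∣ P.eval (b : ℤ) := by
    intro p hp hpW hpq h
    apply hb₁ p hp hpW hpq
    refine (per_mod (F := fun n => P.eval n) hF.per hp b b₁ ?_).1 h
    rw [hbd]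
    have : W ≡ 0 [MOD p] := (Nat.modEq_zero_iff_dvd).2 hpW
    simpa using this.add_right b₁
  have hb : ∀ p : ℕ, p.Prime → p ∣ W → ¬ p ∣ b := by
    intro p hp hpW h
    by_cases hpq : p ∣ q
    · apply ha₀ p hp hpq
      have h1 : b ≡ a₀ [MOD p] := hbq.of_dvd hpq
      exact (Nat.ModEq.dvd_iff h1 dvd_rfl).1 h
    · exact hb' p hp hpW hpq (hFid p hp b (by exact_mod_cast h))
  have hσW : σ ∣ W := hσq.trans hqW
  have hexQ : ∀ i, ∃ Q : ℤ[X], C (σ : ℤ) * Q = P.comp (C (W : ℤ) * X + C ((W * t i + b : ℕ) : ℤ)) := by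
    intro i
    apply exQ P W (W * t i + b) σ hσW
    have h2 : W * t i + b ≡ a₀ [MOD q] := by
      have h3 : W * t i ≡ 0 [MOD q] := (Nat.modEq_zero_iff_dvd).2 (hqW.mul_right _)
      simpa using h3.add hbq
    have h4 : (σ : ℤ) ∣ (a₀ : ℤ) - ((W * t i + b : ℕ) : ℤ) := Nat.modEq_iff_dvd.1 (h2.of_dvd hσq)
    have h5 := h4.trans (sub_dvd_eval_sub (a₀ : ℤ) ((W * t i + b : ℕ) : ℤ) P)
    exact (dvd_sub_right hσ0).1 h5
  choose Q hQ using hexQ
  have hP0 : P ≠ 0 := by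
    intro h0
    obtain ⟨h1, h2⟩ := hF.root 2 Nat.prime_two
    apply h2.ne
    unfold rt
    rw [filter_true_of_mem, card_range]
    intro x _
    rw [h0]
    simp
  obtain ⟨κ, hκ⟩ : ∃ κ : ℝ, κ = c / (2 * 2 ^ 2 ^ k) / u := ⟨_, rfl⟩
  have hκ0 : 0 < κ := by rw [hκ]; positivity
  obtain ⟨B₁, L₀, hprog⟩ := dense_prog (∏ i, Q i) (Q_ne P hP0 W b σ hW0 t Q hQ)
    (fun p hp => Q_adm P g hF W b σ q a₀ t Q hQ hqW hσq hbq hσ (fun p hp hpk => hWp p hp (by omega))
      hb' p hp) (ε₁ / 2) κ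
    (by positivity) hκ0 l hl 4
  refine ⟨2 * (g * 2 ^ k) + 2 + (B₁ + 1), ?_⟩
  have hcore2 := hdis t b
  obtain ⟨Y₀, hcoreY⟩ := hcore 1
  have hcore1 : ∀ᶠ Y : ℕ in atTop, ∀ M L z : ℕ, Win W Y M L →
        (z : ℝ) < (Y : ℝ) ^ ε₁ → (Y : ℝ) ^ ε₁ ≤ z + 1 →
        c * (L * Vp (fun n => P.eval n) W b z t) ≤
          ((gq (fun n => P.eval n) z W b t m M L).card : ℝ) ∧
        0 < Vp (fun n => P.eval n) W b z t ∧
        1 ≤ Real.log Y ^ (2 * (g * 2 ^ k) + 1) * Vp (fun n => P.eval n) W b z t := by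
    have h1 : ∀ᶠ Y : ℕ in atTop, ((univ.sup t : ℕ) : ℝ) ≤ Real.log (Y : ℝ) :=
      (Real.tendsto_log_atTop.comp tendsto_natCast_atTop_atTop).eventually_ge_atTop _
    filter_upwards [h1, eventually_ge_atTop Y₀] with Y h2 h3
    intro M L z
    refine hcoreY Y h3 t ht (fun i => ?_) b (by omega) hb M L z
    rw [pow_one]
    refine le_trans ?_ h2
    exact_mod_cast Finset.le_sup (f := t) (mem_univ i)
  have hW0r : (0 : ℝ) < W := by exact_mod_cast hW0
  -- the other primes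
  obtain ⟨E', hE'⟩ : ∃ E', E' = E.filter (fun y => ∀ i, W * t i + r ≠ y ∧
    P.eval (((W * t i + r : ℕ) : ℤ) - y) ≠ 0) := ⟨_, rfl⟩
  have hdisc : ∀ᶠ N : ℕ in atTop, ∀ y ∈ E', ∀ M L z : ℕ, Win W N M L → (z : ℝ) < (N : ℝ) ^ ε₁ →
        0 < Vp (fun n => P.eval n) W b z t →
        1 ≤ Real.log N ^ (2 * (g * 2 ^ k) + 1) * Vp (fun n => P.eval n) W b z t →
        ∀ s : Finset ℕ,
        (∀ K ∈ s, K ∈ Ioc M (M + L) ∧ (W * K + (b - r + y)).Prime ∧
          ∀ p ∈ PS W z, ∀ i, ¬ (p : ℤ) ∣ P.eval ((W * (K + t i) + b : ℕ) : ℤ)) →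
        (s.card : ℝ) ≤ c / (2 * (E'.card + 1)) * (L * Vp (fun n => P.eval n) W b z t) := by
    rw [Finset.eventually_all]
    intro y hy
    rw [hE', mem_filter] at hy
    obtain ⟨Y₁, hY₁⟩ := hcore2 (b - r + y) (by
      intro j
      have e : ((W * t j + b : ℕ) : ℤ) - ((b - r + y : ℕ) : ℤ) = ((W * t j + r : ℕ) : ℤ) - y := by
        have : r ≤ b := by omega
        push_cast [this]
        ring
      show P.eval _ ≠ 0
      rw [e]
      exact (hy.2 j).2) (c / (2 * (E'.card + 1)))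
      (by positivity)
    filter_upwards [eventually_ge_atTop Y₁] with N hN M L z h1 h2 h3 h4 s hs
    exact hY₁ N hN M L z h1 h2 h3 h4 s hs
  have hlogN : Tendsto (fun N : ℕ => Real.log N) atTop atTop :=
    Real.tendsto_log_atTop.comp tendsto_natCast_atTop_atTop
  have hbigε : ∀ᶠ N : ℕ in atTop, (1 : ℝ) < (N : ℝ) ^ (ε₁ / 2) :=
    ((tendsto_rpow_atTop (by positivity : 0 < ε₁ / 2)).comp
      tendsto_natCast_atTop_atTop).eventually_gt_atTop _
  have hzN : ∀ᶠ N : ℕ in atTop, (N : ℝ) ^ ε₁ ≤ (N / (2 * W) : ℕ) := by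
    have h1 : ∀ᶠ N : ℕ in atTop, (4 * W : ℝ) ≤ (N : ℝ) ^ (1 - ε₁) :=
      ((tendsto_rpow_atTop (by linarith : 0 < 1 - ε₁)).comp
        tendsto_natCast_atTop_atTop).eventually_ge_atTop _
    filter_upwards [h1, eventually_ge_atTop (4 * W)] with N h2 h3
    have hNpos : (0 : ℝ) < N := by
      have : 0 < N := by omega
      exact_mod_cast this
    have h4 : N ≤ 4 * W * (N / (2 * W)) := by
      have h5 := Nat.lt_mul_div_succ N (show 0 < 2 * W by omega)
      rw [Nat.mul_add, Nat.mul_one] at h5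
      have h6 : 1 ≤ N / (2 * W) := by
        rw [Nat.le_div_iff_mul_le (by omega)]
        omega
      have h7 : 2 * W * 1 ≤ 2 * W * (N / (2 * W)) := Nat.mul_le_mul_left _ h6
      have h8 : 4 * W * (N / (2 * W)) = 2 * W * (N / (2 * W)) + 2 * W * (N / (2 * W)) := by ring
      omega
    have h5 : (N : ℝ) ≤ 4 * W * (N / (2 * W) : ℕ) := by exact_mod_cast h4
    have h6 : (N : ℝ) ^ ε₁ * (4 * W) ≤ N := by
      calc (N : ℝ) ^ ε₁ * (4 * W) ≤ (N : ℝ) ^ ε₁ * (N : ℝ) ^ (1 - ε₁) := by gcongr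
        _ = N := by
            rw [← Real.rpow_add hNpos, add_sub_cancel, Real.rpow_one]
    have h7 : (0 : ℝ) < 4 * W := by positivity
    have h8 : (N : ℝ) ^ ε₁ * (4 * W) ≤ (N / (2 * W) : ℕ) * (4 * W) := by
      refine h6.trans (h5.trans (le_of_eq ?_))
      ring
    exact le_of_mul_le_mul_right h8 h7
  filter_upwards [hdisc, numsE W r b Y₀ 0 0 0 C₀ hW2 hrW,
    hlogN.eventually_ge_atTop (1 + W + 4 * W * (4 * 2 ^ 2 ^ k * u) / c), hcore1, hbigε, hzN,
    eventually_ge_atTop (4 * W * (L₀ + 2))]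
    with N hN1 hN2 hNlog hcore1' hNε hNz hNL₀
  intro χ
  obtain ⟨n1, n2, n3, n4, n5, n6, n7, n8, n9, n10⟩ := hN2
  obtain ⟨M, hM⟩ : ∃ M : ℕ, M = (N + r) / W := ⟨_, rfl⟩
  obtain ⟨L, hL⟩ : ∃ L : ℕ, L = N / (2 * W) := ⟨_, rfl⟩
  rw [← hM, ← hL] at n5
  rw [← hL] at n6 n7 n8 n9
  have hNr : (16 : ℝ) ≤ N := by exact_mod_cast n2
  have hN0 : (0 : ℝ) < N := by linarith
  have hN1r : (1 : ℝ) ≤ N := by linarith
  have hlog0 : 0 < Real.log N := by
    have : 0 ≤ 4 * W * (4 * 2 ^ 2 ^ k * u) / c := by positivity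
    have : (0 : ℝ) ≤ W := Nat.cast_nonneg _
    linarith
  obtain ⟨z, hz⟩ : ∃ z : ℕ, z + 1 = ⌈(N : ℝ) ^ ε₁⌉₊ := by
    have : 1 ≤ ⌈(N : ℝ) ^ ε₁⌉₊ := Nat.ceil_pos.2 (by positivity)
    exact ⟨⌈(N : ℝ) ^ ε₁⌉₊ - 1, by omega⟩
  have hz1 : (z : ℝ) < (N : ℝ) ^ ε₁ := by
    have h1 := Nat.ceil_lt_add_one (show 0 ≤ (N : ℝ) ^ ε₁ by positivity)
    rw [← hz] at h1
    push_cast at h1
    linarith
  have hz2 : (N : ℝ) ^ ε₁ ≤ z + 1 := by
    have h1 := Nat.le_ceil ((N : ℝ) ^ ε₁)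
    rw [← hz] at h1
    push_cast at h1
    exact h1
  obtain ⟨hgd, hV0, hV1⟩ := hcore1' M L z n5 hz1 hz2
  have hWL1 : 1 ≤ W * L := by
    have h1 : (1 : ℝ) ≤ ((W * L : ℕ) : ℝ) := le_trans (Real.one_le_rpow hN1r (by norm_num)) n7
    exact_mod_cast h1
  have hL1 : 1 ≤ L := by
    rcases Nat.eq_zero_or_pos L with h | h
    · rw [h, mul_zero] at hWL1
      omega
    · exact h
  have hLr : (0 : ℝ) < L := by exact_mod_cast hL1
  obtain ⟨Hs, A₀, hHs, hA₀1, hA₀2⟩ := manyQ (fun n => P.eval n) W b M L z k m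
    c (Vp (fun n => P.eval n) W b z t) t E' (fun y => b - r + y) hc hV0
    hLr hgd (fun y hy s hs => hN1 y hy M L z n5 hz1 hV0 hV1 s hs)
  obtain ⟨cc, hcc⟩ := popular hu A₀ (fun K => χ (W * K + b - r))
  obtain ⟨A, hAdef⟩ : ∃ A, A = A₀.filter (fun K => χ (W * K + b - r) = cc) := ⟨_, rfl⟩
  rw [← hAdef] at hcc
  have hAcol : ∀ K ∈ A, χ (W * K + b - r) = cc := by
    intro K hK
    rw [hAdef, mem_filter] at hK
    exact hK.2
  have hAA : ∀ K ∈ A, K ∈ A₀ := by
    intro K hK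
    rw [hAdef, mem_filter] at hK
    exact hK.1
  have hA2 : ∀ K ∈ A, _ := fun K hK => hA₀2 K (hAA K hK)
  have hA1 : c / (2 * 2 ^ 2 ^ k) / u * (L * Vp (fun n => P.eval n) W b z t) ≤ A.card := by
    refine le_trans (le_of_eq ?_) ((div_le_div_of_nonneg_right hA₀1 hu0.le).trans hcc)
    ring
  have hWM : W * M ≤ N + r := by rw [hM]; exact Nat.mul_div_le _ _
  have hWM1 : N + r < W * (M + 1) := by
    rw [hM]
    exact Nat.lt_mul_div_succ (N + r) hW0
  have hWM2 : W * (M + 1) = W * M + W := by ring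
  have hWML : W * (M + L) = W * M + W * L := by ring
  have hbds : ∀ K ∈ Ioc M (M + L), N + r < W * K ∧ W * K + b ≤ N + r + W * L + b := by
    intro K hK
    rw [mem_Ioc] at hK
    have h2 : W * (M + 1) ≤ W * K := Nat.mul_le_mul_left _ (by omega)
    have h3 : W * K ≤ W * (M + L) := Nat.mul_le_mul_left _ hK.2
    exact ⟨by omega, by omega⟩
  have hrb : r ≤ b := by omega
  have hrough : ∀ K ∈ A, ∀ p : ℕ, p.Prime → ¬ p ∣ q → (p : ℝ) < (N : ℝ) ^ ε₁ → ∀ i,
      ¬ (p : ℤ) ∣ P.eval ((W * (K + t i) + b : ℕ) : ℤ) := by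
    intro K hK p hp hpq hpN i hi
    by_cases hpW : p ∣ W
    · apply hb' p hp hpW hpq
      refine (per_mod (F := fun n => P.eval n) hF.per hp b (W * (K + t i) + b) ?_).2 hi
      have h1 : 0 ≡ W * (K + t i) [MOD p] := ((Nat.modEq_zero_iff_dvd).2 (hpW.mul_right _)).symm
      have h2 := h1.add_right b
      simpa using h2
    · refine (hA2 K hK).2.1 p ?_ i hi
      unfold PS
      rw [mem_filter, mem_Icc]
      refine ⟨⟨hp.one_lt.le, ?_⟩, hp, hpW⟩
      have h1 : (p : ℝ) < z + 1 := hpN.trans_le hz2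
      have h2 : p < z + 1 := by exact_mod_cast h1
      omega
  -- the progressions
  have hLL₀ : L₀ ≤ L := by
    rw [hL, Nat.le_div_iff_mul_le (by omega)]
    have e1 : 4 * W * (L₀ + 2) = L₀ * (2 * W) + L₀ * (2 * W) + 8 * W := by ring
    omega
  have hML₀ : L₀ ≤ M := by
    rw [hM, Nat.le_div_iff_mul_le hW0]
    have e1 : 4 * W * (L₀ + 2) = 4 * (L₀ * W) + 8 * W := by ring
    omega
  have hML4 : M ≤ 4 * L := by
    obtain ⟨w1, w2, w3, w4, w5⟩ := n5
    have e1 : W * M ≤ N + r := by rw [hM]; exact Nat.mul_div_le _ _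
    have e2 : N < 2 * W * L + 2 * W := by
      have := Nat.lt_mul_div_succ N (show 0 < 2 * W by omega)
      rw [Nat.mul_add, Nat.mul_one] at this
      rw [hL]
      exact this
    have e3 : W * M < W * (2 * L + 3) := by
      have : W * (2 * L + 3) = 2 * W * L + 3 * W := by ring
      omega
    have e4 := Nat.lt_of_mul_lt_mul_left e3
    have e5 : 2 ≤ L := by
      rw [hL, Nat.le_div_iff_mul_le (by omega)]
      have e1 : 4 * W * (L₀ + 2) = 4 * (L₀ * W) + 8 * W := by ring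
      omega
    omega
  have hzL : z ≤ L := by
    have h1 : (z : ℝ) < L := hz1.trans_le (by rw [hL]; exact hNz)
    exact_mod_cast h1.le
  have hLN : (L : ℝ) ≤ N := by
    have : L ≤ N := by rw [hL]; exact Nat.div_le_self _ _
    exact_mod_cast this
  obtain ⟨T, hTA, hT1, hT2⟩ := hprog M L hLL₀ hML₀ hML4 A (fun K hK => (hA2 K hK).1) (by
      intro K hK p hp hpL hd
      by_cases hpq : p ∣ q
      · obtain ⟨h1, h2⟩ := hσ p hp hpq
        exact Q_ndvd P W b σ q a₀ t Q hQ hqW hbq K p hp h1 h2 hd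
      obtain ⟨i, hi⟩ := (Q_dvd P W b σ t Q hQ K p hp (fun h => hpq (h.trans hσq))).1 hd
      refine hrough K hK p hp hpq ?_ i hi
      have e1 : (L : ℝ) ^ (ε₁ / 2) ≤ (N : ℝ) ^ (ε₁ / 2) :=
        Real.rpow_le_rpow hLr.le hLN (by positivity)
      have e2 : (N : ℝ) ^ ε₁ = (N : ℝ) ^ (ε₁ / 2) * (N : ℝ) ^ (ε₁ / 2) := by
        rw [← Real.rpow_add hN0]
        congr 1
        ring
      rw [e2]
      nlinarith) (by
      refine le_trans ?_ hA1
      rw [← hκ]
      have := VQ_le P W b z L σ hzL t Q hQ hσW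
      gcongr)
  have hlog1 : 1 ≤ Real.log N := by
    have : 0 ≤ 4 * W * (4 * 2 ^ 2 ^ k * u) / c := by positivity
    linarith
  refine ⟨Hs.image (fun i => W * t i + r), ?_, ?_, A.image (fun K => W * K + b - r),
    T.image (fun K => W * K + b - r), cc, ?_, ?_, ?_, ?_⟩
  · intro h hh
    rw [mem_image] at hh
    obtain ⟨i, _, rfl⟩ := hh
    exact hmem i
  · rw [card_image_of_injective _ (fun i j hij => by
      have h1 : W * t i + r = W * t j + r := hij
      have h2 : W * t i = W * t j := by omega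
      exact ht (Nat.eq_of_mul_eq_mul_left hW0 h2))]
    exact hHs
  · intro n hn
    rw [mem_image] at hn
    obtain ⟨K, hK, rfl⟩ := hn
    exact hAcol K hK
  · rw [card_image_of_injective _ (fun K K' hKK => by
      have h1 : W * K + b - r = W * K' + b - r := hKK
      have h2 : W * K = W * K' := by omega
      exact Nat.eq_of_mul_eq_mul_left hW0 h2)]
    have hT3 : (A.card : ℝ) / 2 ≤ T.card := by linarith
    refine le_trans ?_ hT3
    rw [le_div_iff₀ two_pos]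
    refine le_trans ?_ hA1
    have hBB : (N : ℝ) / Real.log N ^ (2 * (g * 2 ^ k) + 2 + (B₁ + 1)) ≤
        (N : ℝ) / Real.log N ^ (2 * (g * 2 ^ k) + 2) := by
      apply div_le_div_of_nonneg_left hN0.le (by positivity)
      exact pow_le_pow_right₀ hlog1 (by omega)
    refine le_trans (mul_le_mul_of_nonneg_right hBB (by norm_num)) ?_
    rw [← le_div_iff₀ two_pos]
    -- `N / log ^ B ≤ c' L V`
    have hLN : (N : ℝ) ≤ 4 * W * L := by
      obtain ⟨w1, w2, w3, w4, w5⟩ := n5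
      have h1 : 2 * W * (N / (2 * W)) ≤ N := Nat.mul_div_le _ _
      have h4 : N < 2 * W * (N / (2 * W)) + 2 * W := by
        have := Nat.lt_mul_div_succ N (show 0 < 2 * W by omega)
        rw [Nat.mul_add, Nat.mul_one] at this
        exact this
      rw [← hL] at h4
      have h5 : 2 * W ≤ 2 * W * L := Nat.le_mul_of_pos_right _ hL1
      have h6 : N ≤ 4 * W * L := by
        have : 4 * W * L = 2 * W * L + 2 * W * L := by ring
        omega
      exact_mod_cast h6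
    have hpow : (0 : ℝ) < Real.log N ^ (2 * (g * 2 ^ k) + 1) := by positivity
    have h7 : 1 / Real.log N ^ (2 * (g * 2 ^ k) + 1) ≤ Vp (fun n => P.eval n) W b z t := by
      rw [div_le_iff₀ hpow]
      linarith
    have h8 : 4 * W * (4 * 2 ^ 2 ^ k * u) / c ≤ Real.log N := by
      have : (0 : ℝ) ≤ W := Nat.cast_nonneg _
      linarith
    rw [div_le_iff₀ hc] at h8
    calc (N : ℝ) / Real.log N ^ (2 * (g * 2 ^ k) + 2)
        ≤ (4 * W * L) / Real.log N ^ (2 * (g * 2 ^ k) + 2) :=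
          div_le_div_of_nonneg_right hLN (by positivity)
      _ = (4 * W / Real.log N) * (L * (1 / Real.log N ^ (2 * (g * 2 ^ k) + 1))) := by
          rw [show 2 * (g * 2 ^ k) + 2 = (2 * (g * 2 ^ k) + 1) + 1 by ring, pow_succ]
          field_simp
      _ ≤ (c / (4 * 2 ^ 2 ^ k * u)) * (L * Vp (fun n => P.eval n) W b z t) := by
          apply mul_le_mul _ (by gcongr) (by positivity) (by positivity)
          rw [div_le_div_iff₀ hlog0 (by positivity)]
          linarith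
      _ = c / (2 * 2 ^ 2 ^ k) / u * (L * Vp (fun n => P.eval n) W b z t) / 2 := by
          field_simp
          ring
  · intro n hn
    rw [mem_image] at hn
    obtain ⟨K, hK, rfl⟩ := hn
    obtain ⟨d, hd1, hd2, hd3⟩ := hT2 K hK
    have hb0 := hbds K (hA2 K (hTA hK)).1
    refine ⟨W * d, Nat.mul_pos hW0 hd1, ?_, ?_⟩
    · have hWl : (W : ℝ) ≤ Real.log N := by
        have : 0 ≤ 4 * W * (4 * 2 ^ 2 ^ k * u) / c := by positivity
        linarith
      have hL1r : (1 : ℝ) ≤ L := by exact_mod_cast hL1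
      have hlL : Real.log L ≤ Real.log N := Real.log_le_log hLr hLN
      have hlL0 : 0 ≤ Real.log L := Real.log_nonneg hL1r
      calc ((W * d : ℕ) : ℝ) = W * d := by push_cast; ring
        _ ≤ Real.log N * Real.log N ^ B₁ := by
            apply mul_le_mul hWl _ (Nat.cast_nonneg _) (by linarith)
            exact hd2.trans (pow_le_pow_left₀ hlL0 hlL _)
        _ = Real.log N ^ (B₁ + 1) := by ring
        _ ≤ _ := pow_le_pow_right₀ hlog1 (by omega)
    · intro i hi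
      rw [mem_image]
      refine ⟨K + i * d, hd3 i hi, ?_⟩
      show W * (K + i * d) + b - r = W * K + b - r + i * (W * d)
      have e1 : W * (K + i * d) = W * K + i * (W * d) := by ring
      omega
  · intro n hn
    rw [mem_image] at hn
    obtain ⟨K, hK, rfl⟩ := hn
    obtain ⟨hK1', hK2', hK3', hK4'⟩ := hA2 K hK
    have hb0 := hbds K hK1'
    have e : ∀ i, W * K + b - r + (W * t i + r) = W * (K + t i) + b := by
      intro i
      have : W * (K + t i) = W * K + W * t i := by ring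
      omega
    refine ⟨by omega, by omega, ?_, ?_, ?_⟩
    · intro h hh
      rw [mem_image] at hh
      obtain ⟨i, hi, rfl⟩ := hh
      rw [e i]
      refine ⟨(hK3' i).2 hi, ?_⟩
      have h1 : W * (K + t i) ≡ 0 [MOD q] := (Nat.modEq_zero_iff_dvd).2 (hqW.mul_right _)
      have h2 : W ≡ 0 [MOD q] := (Nat.modEq_zero_iff_dvd).2 hqW
      have h3 := (h1.add (h2.add hb₁q))
      rw [hbd]
      simpa using h3
    · intro h hh p hp hpq hpd
      rw [mem_image] at hh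
      obtain ⟨i, hi, rfl⟩ := hh
      rw [e i] at hpd
      by_contra hcon
      push Not at hcon
      exact hrough K hK p hp hpq hcon i hpd
    · intro y hy hyH
      by_cases hyE : y ∈ E'
      · have h1 := hK4' y hyE
        have e2 : W * K + b - r + y = W * K + (b - r + y) := by omega
        rw [e2]
        exact h1
      · rw [hE', mem_filter] at hyE
        push Not at hyE
        obtain ⟨i, hi⟩ := hyE hy
        intro hpr
        by_cases hiy : W * t i + r = y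
        · rw [← hiy, e i] at hpr
          apply hyH
          rw [mem_image]
          exact ⟨i, (hK3' i).1 hpr, hiy⟩
        · have h0 := hi hiy
          rcases hEH _ (hmem i) y hy (fun h => hiy h.symm) with h1 | ⟨p, hp, hpq, hpd⟩
          · exact h1 h0
          have hpW : p ∣ W := hpq.trans hqW
          have h3 : p ∣ W * K + b - r + y := by
            have h4 : ((W * K + b - r + y : ℕ) : ℤ) =
                ((W * (K + t i) + b : ℕ) : ℤ) - (((W * t i + r : ℕ) : ℤ) - y) := by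
              have h5 := e i
              have h6 : ((W * K + b - r + (W * t i + r) : ℕ) : ℤ) =
                ((W * (K + t i) + b : ℕ) : ℤ) := by rw [h5]
              rw [← h6]
              push_cast
              ring
            have h7 : ((W * (K + t i) + b : ℕ) : ℤ) ≡ a₀ [ZMOD p] := by
              have h8 : W * (K + t i) + b ≡ a₀ [MOD q] := by
                have h9 : W * (K + t i) ≡ 0 [MOD q] := (Nat.modEq_zero_iff_dvd).2 (hqW.mul_right _)
                simpa using h9.add hbq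
              exact (Int.natCast_modEq_iff).2 (h8.of_dvd hpq)
            have h10 : (p : ℤ) ∣ ((W * K + b - r + y : ℕ) : ℤ) := by
              rw [h4]
              have h11 := (h7.sub_right (((W * t i + r : ℕ) : ℤ) - y)).dvd
              exact (dvd_sub_right hpd).1 h11
            exact_mod_cast h10
          have h12 := (Nat.prime_dvd_prime_iff_eq hp hpr).1 h3
          have h13 : p ≤ W := Nat.le_of_dvd hW0 hpW
          have h14 : (W : ℝ) ≤ Real.log N := by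
            have : 0 ≤ 4 * W * (4 * 2 ^ 2 ^ k * u) / c := by positivity
            linarith
          have h15 : Real.log N ≤ N := (Real.log_le_sub_one_of_pos hN0).trans (by linarith)
          have h16 : W ≤ N := by
            have : (W : ℝ) ≤ N := h14.trans h15
            exact_mod_cast this
          omega

end Pool.Agent.V8H34.PS
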