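import Pool.Agent.V8H34.PR.Index
import Pool.Agent.V8H34.PS.Runs

set_option autoImplicit false

/-!
# Progressions of strings of consecutive primes, with prescribed indices
-/

namespace Pool.Agent.V8H34.PS

open Finset Filter Polynomial
open Pool.Agent.Y677.RSZ
open Pool.Agent.R498.MT
open Pool.Agent.R498.MP
open Pool.Agent.V8H2.MQ
open Pool.Agent.V8H34.PR (nth_eq)

/-- strings of consecutive primes of one colour in progressions, at which `f` is almost prime -/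
theorem strings_prog2 (f : ℤ[X]) (hf : f ≠ 0)
    (hadm : ∀ p : ℕ, p.Prime → ∃ n : ℤ, ¬ (p : ℤ) ∣ n * f.eval n)
    (q a σ : ℕ) (hq : 0 < q) (hσq : σ ∣ q) (hσ0 : (σ : ℤ) ∣ f.eval (a : ℤ))
    (ha : ∀ p : ℕ, p.Prime → p ∣ q → ¬ p ∣ a)
    (hσ : ∀ p : ℕ, p.Prime → p ∣ q → p * σ ∣ q ∧ ¬ ((p * σ : ℕ) : ℤ) ∣ f.eval (a : ℤ))
    (hz : ∀ z : ℤ, z ≠ 0 → f.eval z = 0 → ∃ p : ℕ, p.Prime ∧ p ∣ q ∧ (p : ℤ) ∣ (a : ℤ) - z) (m : ℕ) :
    ∃ (K r : ℕ) (δ : ℝ), 0 < δ ∧ ∀ l u : ℕ, 2 ≤ l → 1 ≤ u → ∃ B : ℕ, ∀ᶠ N : ℕ in atTop,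
      ∀ χ : ℕ → Fin u, ∃ H ⊆ Finset.range K, m < H.card ∧
      ∃ (A T : Finset ℕ) (cc : Fin u), (∀ n ∈ A, χ n = cc) ∧
        (N : ℝ) / Real.log N ^ B ≤ T.card ∧
        (∀ n ∈ T, ∃ D : ℕ, 1 ≤ D ∧ (D : ℝ) ≤ Real.log N ^ B ∧ ∀ i < l, n + i * D ∈ A) ∧
        ∀ n ∈ A, N < n ∧ n + K ≤ 2 * N ∧
        (∀ y ≤ K, (n + y).Prime ↔ y ∈ H) ∧
        ∀ h ∈ H, n + h ≡ a [MOD q] ∧
          ∃ v : ℤ, f.eval ((n + h : ℕ) : ℤ) = σ * v ∧ AP r ((N : ℝ) ^ δ) v := by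
  classical
  have hσ1 : σ ≠ 0 := fun h => by
    rw [h] at hσq
    exact hq.ne' (Nat.eq_zero_of_zero_dvd hσq)
  have hP : (X * f : ℤ[X]) ≠ 0 := mul_ne_zero X_ne_zero hf
  have hev : ∀ n : ℤ, (X * f : ℤ[X]).eval n = n * f.eval n := fun n => by
    rw [eval_mul, eval_X]
  obtain ⟨g, hg⟩ := poly_all (X * f) hP (fun p hp => by
    obtain ⟨n, hn⟩ := hadm p hp
    exact ⟨n, by rwa [hev]⟩)
  obtain ⟨K, δ, hδ, hmain⟩ := runs_prog2 (X * f) (g + q + 1) (by omega)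
    (Pool.Agent.Y677.RSZ.Sys.mono hg (by omega)) (fun p _ n hd => by
      rw [hev]
      exact hd.mul_right _) q a σ hq hσq (by
      rw [hev]
      exact hσ0.mul_left _) ha (fun p hp hpq => by
      obtain ⟨h1, h2⟩ := hσ p hp hpq
      refine ⟨h1, fun h3 => h2 ?_⟩
      rw [hev] at h3
      have h4 : Nat.Coprime (p * σ) a := by
        apply Nat.Coprime.coprime_dvd_left h1
        apply Nat.coprime_of_dvd
        intro t ht h5 h6
        exact ha t ht h5 h6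
      exact (Nat.Coprime.isCoprime h4).dvd_of_dvd_mul_left h3) m
  obtain ⟨Kf, D, hKD⟩ := Pool.Agent.W123.RU.Poly.eval_bound f
  obtain ⟨n₀, hn₀⟩ := Pool.Agent.Y677.RSZ.ne_zero_ev f hf
  obtain ⟨r, hr⟩ := exists_nat_ge ((2 * D + 1 : ℝ) / δ)
  refine ⟨K, r, δ, hδ, ?_⟩
  intro l u hl hu
  obtain ⟨B, hB⟩ := hmain (Finset.range K) (by rw [card_range]) (Finset.range (K + 1)) (by
    intro h _ y _ hyh
    rw [hev]
    have h1 : (h : ℤ) - y ≠ 0 := by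
      intro h2
      apply hyh
      have : (h : ℤ) = y := by linarith
      exact_mod_cast this.symm
    by_cases h2 : f.eval ((h : ℤ) - y) = 0
    · right
      exact hz _ h1 h2
    · left
      exact mul_ne_zero h1 h2) K l u hl hu
  refine ⟨B, ?_⟩
  filter_upwards [hB, eventually_ge_atTop (Kf + n₀ + 3)] with N hN hNK χ
  obtain ⟨H, hH, hHm, A, T, cc, hcc, hT1, hT2, hA2⟩ := hN χ
  refine ⟨H, hH, hHm, A, T, cc, hcc, hT1, hT2, fun n hn => ?_⟩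
  obtain ⟨g1, g2, g3, g4, g5⟩ := hA2 n hn
  refine ⟨g1, g2, fun y hy => ⟨fun hp => ?_, fun hyH => (g3 y hyH).1⟩, fun h hh => ⟨(g3 h hh).2, ?_⟩⟩
  · by_contra hcon
    exact g5 y (Finset.mem_range.2 (by omega)) hcon hp
  · have hme := (g3 h hh).2
    have hdσ : (σ : ℤ) ∣ f.eval ((n + h : ℕ) : ℤ) := by
      have h4 : (σ : ℤ) ∣ (a : ℤ) - ((n + h : ℕ) : ℤ) := Nat.modEq_iff_dvd.1 (hme.of_dvd hσq)
      have h5 := h4.trans (sub_dvd_eval_sub (a : ℤ) ((n + h : ℕ) : ℤ) f)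
      exact (dvd_sub_right hσ0).1 h5
    obtain ⟨v, hv⟩ := hdσ
    refine ⟨v, hv, ?_⟩
    have hne : f.eval ((n + h : ℕ) : ℤ) ≠ 0 := hn₀ (n + h) (by omega)
    have hv0 : v ≠ 0 := by
      intro h0
      rw [h0, mul_zero] at hv
      exact hne hv
    have h9' : ∀ p : ℕ, p.Prime → (p : ℤ) ∣ v → (N : ℝ) ^ δ ≤ p := by
      intro p hp hpd
      by_cases hpq : p ∣ q
      · exfalso
        obtain ⟨h1, h2⟩ := hσ p hp hpq
        apply h2
        have h3 : ((p * σ : ℕ) : ℤ) ∣ f.eval ((n + h : ℕ) : ℤ) := by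
          rw [hv]
          push_cast
          rw [mul_comm]
          exact mul_dvd_mul_left _ hpd
        have h4 : ((p * σ : ℕ) : ℤ) ∣ (a : ℤ) - ((n + h : ℕ) : ℤ) := Nat.modEq_iff_dvd.1 (hme.of_dvd h1)
        have h5 := h4.trans (sub_dvd_eval_sub (a : ℤ) ((n + h : ℕ) : ℤ) f)
        exact (dvd_sub_left h3).1 h5
      · apply g4 h hh p hp hpq
        rw [hev, hv]
        exact (hpd.mul_left _).mul_left _
    have hhK : h < K := Finset.mem_range.1 (hH hh)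
    have hx : n + h ≤ 2 * N := by omega
    have hNr : (3 : ℝ) ≤ N := by
      have : 3 ≤ N := by omega
      exact_mod_cast this
    have hKr : (Kf : ℝ) ≤ N := by
      have : Kf ≤ N := by omega
      exact_mod_cast this
    have hxr : ((n + h : ℕ) : ℝ) ≤ 2 * N := by exact_mod_cast hx
    have h8 := hKD ((n + h : ℕ) : ℤ)
    have h9 : ((f.eval ((n + h : ℕ) : ℤ)).natAbs : ℝ) =
        |((f.eval ((n + h : ℕ) : ℤ) : ℤ) : ℝ)| := by
      rw [← Int.cast_abs, Int.abs_eq_natAbs]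
      simp
    have h10 : ((f.eval ((n + h : ℕ) : ℤ)).natAbs : ℝ) ≤
        (N : ℝ) ^ ((2 * D + 1 : ℕ) : ℝ) := by
      rw [h9]
      refine h8.trans ?_
      rw [Real.rpow_natCast, pow_succ, pow_mul, mul_comm]
      have h11 : 1 + |(((n + h : ℕ) : ℤ) : ℝ)| ≤ (N : ℝ) ^ 2 := by
        rw [Int.cast_natCast, abs_of_nonneg (Nat.cast_nonneg _)]
        nlinarith
      have h12 : (0 : ℝ) ≤ 1 + |(((n + h : ℕ) : ℤ) : ℝ)| := by positivity
      gcongr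
    have h15 : (v.natAbs : ℝ) ≤ (N : ℝ) ^ ((2 * D + 1 : ℕ) : ℝ) := by
      refine le_trans ?_ h10
      rw [hv, Int.natAbs_mul]
      have : v.natAbs ≤ (σ : ℤ).natAbs * v.natAbs :=
        Nat.le_mul_of_pos_left _ (by simpa using Nat.pos_of_ne_zero hσ1)
      exact_mod_cast this
    have h13 := Pool.Agent.R498.MT.omega_le N v.natAbs δ
      ((2 * D + 1 : ℕ) : ℝ) (by omega) hδ (by
        rw [Int.natAbs_ne_zero]
        exact hv0) (fun p hp hpd => h9' p hp (Int.natCast_dvd.2 hpd)) h15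
    have h14 : ((2 * D + 1 : ℕ) : ℝ) / δ ≤ r := by
      push_cast
      exact hr
    exact ⟨hv0, by exact_mod_cast h13.trans h14, h9'⟩

/-- **Progressions of strings of primes with consecutive indices in a residue class.** -/
theorem index_prog2 (f : ℤ[X]) (hf : f ≠ 0)
    (hadm : ∀ p : ℕ, p.Prime → ∃ n : ℤ, ¬ (p : ℤ) ∣ n * f.eval n)
    (q e σ : ℕ) (hq : 0 < q) (hσq : σ ∣ q) (hσ0 : (σ : ℤ) ∣ f.eval (e : ℤ))
    (he : ∀ p : ℕ, p.Prime → p ∣ q → ¬ p ∣ e)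
    (hσ : ∀ p : ℕ, p.Prime → p ∣ q → p * σ ∣ q ∧ ¬ ((p * σ : ℕ) : ℤ) ∣ f.eval (e : ℤ))
    (hz : ∀ z : ℤ, z ≠ 0 → f.eval z = 0 → ∃ p : ℕ, p.Prime ∧ p ∣ q ∧ (p : ℤ) ∣ (e : ℤ) - z)
    (u r : ℕ) (hu : 1 ≤ u) :
    ∃ (C R : ℕ) (δ : ℝ), 0 < δ ∧ ∀ a l : ℕ, ∃ B : ℕ, ∀ᶠ N : ℕ in atTop,
      ∃ (h : ℕ → ℕ) (T : Finset ℕ), h 0 = 0 ∧ (∀ j < r, h j < h (j + 1)) ∧ h r ≤ C ∧
      (N : ℝ) / Real.log N ^ B ≤ T.card ∧ ∀ s ∈ T, ∃ D : ℕ, 1 ≤ D ∧ (D : ℝ) ≤ Real.log N ^ B ∧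
        ∀ i < l, ∃ k : ℕ, ∀ j ≤ r, Nat.nth Nat.Prime (u * (k + j) + a) = s + i * D + h j ∧
          N < s + i * D + h j ∧ s + i * D + h j ≤ 2 * N ∧ s + i * D + h j ≡ e [MOD q] ∧
          ∃ v : ℤ, f.eval ((s + i * D + h j : ℕ) : ℤ) = σ * v ∧ AP R ((N : ℝ) ^ δ) v := by
  classical
  obtain ⟨C, R, δ, hδ, hmain⟩ := strings_prog2 f hf hadm q e σ hq hσq hσ0 he hσ hz (u * (r + 2))
  refine ⟨C, R, δ, hδ, fun a l => ?_⟩
  obtain ⟨B, hB⟩ := hmain (l + 2) u (by omega) hu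
  refine ⟨B, ?_⟩
  have hinf := Nat.infinite_setOfPred_prime
  filter_upwards [hB, eventually_ge_atTop (Nat.nth Nat.Prime (a + u))] with N hN hN3
  obtain ⟨H, hH, hHm, A, T, cc, hcc, hT1, hT2, hA2⟩ :=
    hN (fun n => ⟨Nat.count Nat.Prime n % u, Nat.mod_lt _ hu⟩)
  have hHC : ∀ h ∈ H, h ≤ C := fun h hh => (Finset.mem_range.1 (hH hh)).le
  obtain ⟨ρ, hρ⟩ : ∃ ρ : ℕ, ρ = cc.1 := ⟨_, rfl⟩
  have hρu : ρ < u := by rw [hρ]; exact cc.2
  have hcol : ∀ n ∈ A, Nat.count Nat.Prime n % u = ρ := by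
    intro n hn
    have := hcc n hn
    rw [hρ, ← this]
  obtain ⟨j₀, hj₀⟩ : ∃ j₀ : ℕ, j₀ = (a + u * (a + 1) - ρ) % u := ⟨_, rfl⟩
  have hj₀u : j₀ < u := by rw [hj₀]; exact Nat.mod_lt _ hu
  obtain ⟨ee, hee⟩ : ∃ ee : ℕ → ℕ, ee = fun j =>
    if h : j < H.card then H.orderEmbOfFin rfl ⟨j, h⟩ else 0 := ⟨_, rfl⟩
  have heej : ∀ j (h : j < H.card), ee j = H.orderEmbOfFin rfl ⟨j, h⟩ := by
    intro j h
    rw [hee]
    exact dif_pos h
  have hmono : ∀ i j, i < j → j < H.card → ee i < ee j := by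
    intro i j hij hj
    rw [heej i (by omega), heej j hj]
    apply (H.orderEmbOfFin rfl).strictMono
    rw [Fin.mk_lt_mk]
    exact hij
  have hJ : ∀ j ≤ r, j₀ + u * j < H.card := by
    intro j hj
    have h1 : u * j ≤ u * r := Nat.mul_le_mul_left _ hj
    have h2 : u * (r + 2) = u * r + u + u := by ring
    omega
  have hmem : ∀ j ≤ r, ee (j₀ + u * j) ∈ H := by
    intro j hj
    rw [heej _ (hJ j hj)]
    exact Finset.orderEmbOfFin_mem H rfl _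
  have hle : ∀ j ≤ r, ee j₀ ≤ ee (j₀ + u * j) := by
    intro j hj
    rcases Nat.eq_zero_or_pos j with h0 | h0
    · rw [h0, mul_zero, add_zero]
    · have h1 : 0 < u * j := Nat.mul_pos hu h0
      exact (hmono _ _ (by omega) (hJ j hj)).le
  refine ⟨fun j => ee (j₀ + u * j) - ee j₀, T.image (fun n => n + ee j₀), by simp, ?_, ?_, ?_, ?_⟩
  · intro j hj
    have h1 := hmono (j₀ + u * j) (j₀ + u * (j + 1)) (by rw [mul_add]; omega) (hJ (j + 1) (by omega))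
    have h2 := hle j (by omega)
    simp only
    omega
  · have h1 := hHC _ (hmem r le_rfl)
    simp only
    omega
  · rw [card_image_of_injective _ (fun i j hij => by
      have : i + ee j₀ = j + ee j₀ := hij
      omega)]
    exact hT1
  · intro s hs
    rw [mem_image] at hs
    obtain ⟨n, hn, rfl⟩ := hs
    obtain ⟨D, hD1, hD2, hD3⟩ := hT2 n hn
    refine ⟨D, hD1, hD2, ?_⟩
    intro i hi
    obtain ⟨x, hx⟩ : ∃ x, x = n + i * D := ⟨_, rfl⟩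
    have hxA : x ∈ A := by
      rw [hx]
      exact hD3 i (by omega)
    obtain ⟨g1, g2, g3, g4⟩ := hA2 x hxA
    have hxs : n + ee j₀ + i * D = x + ee j₀ := by rw [hx]; ring
    rw [hxs]
    obtain ⟨c, hc⟩ : ∃ c, c = Nat.count Nat.Prime x := ⟨_, rfl⟩
    have hcρ : c % u = ρ := by rw [hc]; exact hcol x hxA
    -- there are many primes below
    have hca : a + u ≤ c := by
      by_contra hcon
      push Not at hcon
      rw [hc] at hcon
      have h6 : x ≤ Nat.nth Nat.Prime (a + u) := by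
        by_contra h7
        push Not at h7
        have h8 := Nat.count_strict_mono (Nat.prime_nth_prime (a + u)) h7
        rw [Nat.count_nth_of_infinite hinf] at h8
        omega
      omega
    -- the index
    have hdiv : u ∣ c + j₀ - a := by
      have h1 : (c + j₀) % u = a % u := by
        have h2 : ρ + (a + u * (a + 1) - ρ) = a + u * (a + 1) := by
          have : u ≤ u * (a + 1) := Nat.le_mul_of_pos_right _ (by omega)
          omega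
        calc (c + j₀) % u = (c % u + j₀ % u) % u := Nat.add_mod _ _ _
          _ = (ρ % u + (a + u * (a + 1) - ρ) % u) % u := by
              rw [hcρ, hj₀, Nat.mod_mod, Nat.mod_eq_of_lt hρu]
          _ = (ρ + (a + u * (a + 1) - ρ)) % u := (Nat.add_mod _ _ _).symm
          _ = a % u := by rw [h2, Nat.add_mul_mod_self_left]
      exact (Nat.modEq_iff_dvd' (by omega)).1 h1.symm
    obtain ⟨k, hk⟩ := hdiv
    refine ⟨k, ?_⟩
    intro j hj
    have hidx : u * (k + j) + a = c + (j₀ + u * j) := by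
      have h1 : u * (k + j) = u * k + u * j := by ring
      omega
    have hsum : x + ee j₀ + (ee (j₀ + u * j) - ee j₀) = x + ee (j₀ + u * j) := by
      have := hle j hj
      omega
    have hHH := hmem j hj
    have hb := hHC _ hHH
    have hb' : ee (j₀ + u * j) < C := Finset.mem_range.1 (hH hHH)
    show Nat.nth Nat.Prime (u * (k + j) + a) = x + ee j₀ + (ee (j₀ + u * j) - ee j₀) ∧
      N < x + ee j₀ + (ee (j₀ + u * j) - ee j₀) ∧ x + ee j₀ + (ee (j₀ + u * j) - ee j₀) ≤ 2 * N ∧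
      x + ee j₀ + (ee (j₀ + u * j) - ee j₀) ≡ e [MOD q] ∧
      ∃ v : ℤ, f.eval ((x + ee j₀ + (ee (j₀ + u * j) - ee j₀) : ℕ) : ℤ) = σ * v ∧
        AP R ((N : ℝ) ^ δ) v
    rw [hsum]
    refine ⟨?_, by omega, by omega, (g4 _ hHH).1, (g4 _ hHH).2⟩
    rw [hidx, hc, nth_eq x C H hHC g3 _ (hJ j hj), ← heej]

end Pool.Agent.V8H34.PS
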